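import Mathlib

set_option autoImplicit false

namespace Pool.Agent.D12a3a

open Finset

/-- The choice of parameters. -/
theorem params (δ : ℝ) (hδ : 0 < δ) (b t : ℕ) :
    ∃ s : ℕ, 2 ≤ s ∧ ∃ C : ℝ, 0 ≤ C ∧ ∀ n : ℕ, 0 < n → ∃ D : ℕ, 0 < D ∧ ∃ β : ℝ, 0 < β ∧ β ≤ 1 ∧
      (n : ℝ) * (2 * ((2 * β) ^ s + 4 / (D : ℝ))) < ((1 : ℝ) / 2 ^ (t + 1)) ^ (s ^ t) * β ^ b ∧
      ((t * (2 * n) ^ D : ℕ) : ℝ) ≤ (2 : ℝ) ^ (C * (n : ℝ) ^ (1 + δ)) := by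
  obtain ⟨ε1, hε1⟩ : ∃ ε1 : ℝ, ε1 = δ / (2 * ((b : ℝ) + 1)) := ⟨_, rfl⟩
  have hb0 : (0 : ℝ) ≤ b := Nat.cast_nonneg b
  have hε1pos : 0 < ε1 := by rw [hε1]; positivity
  have hε1b : ε1 * b ≤ δ / 2 := by
    rw [hε1, div_mul_eq_mul_div, div_le_div_iff₀ (by positivity) (by norm_num)]
    nlinarith
  obtain ⟨q, hq⟩ : ∃ q : ℕ, q = ⌈1 / ε1⌉₊ + 2 := ⟨_, rfl⟩
  have hq2 : 2 ≤ q := by omega
  have hqε : 1 ≤ ε1 * q := by
    have h1 : 1 / ε1 ≤ (⌈1 / ε1⌉₊ : ℝ) := Nat.le_ceil _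
    have h2 : ((⌈1 / ε1⌉₊ : ℕ) : ℝ) ≤ (q : ℝ) := by
      rw [hq]; push_cast; linarith
    have h3 : 1 / ε1 ≤ q := le_trans h1 h2
    rw [div_le_iff₀ hε1pos] at h3
    linarith
  obtain ⟨s, hs⟩ : ∃ s : ℕ, s = b + q := ⟨_, rfl⟩
  have hs2 : 2 ≤ s := by omega
  obtain ⟨ρ, hρ⟩ : ∃ ρ : ℝ, ρ = ((1 : ℝ) / 2 ^ (t + 1)) ^ (s ^ t) := ⟨_, rfl⟩
  have hρpos : 0 < ρ := by rw [hρ]; positivity
  have hρ1 : ρ ≤ 1 := by
    rw [hρ]
    apply pow_le_one₀ (by positivity)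
    rw [div_le_one (by positivity)]
    exact one_le_pow₀ (by norm_num)
  obtain ⟨c0, hc0⟩ : ∃ c0 : ℝ, c0 = ρ / 2 ^ (s + 3) := ⟨_, rfl⟩
  have hc0pos : 0 < c0 := by rw [hc0]; positivity
  have hc01 : c0 ≤ 1 := by
    rw [hc0, div_le_one (by positivity)]
    exact le_trans hρ1 (one_le_pow₀ (by norm_num))
  obtain ⟨C1, hC1⟩ : ∃ C1 : ℝ, C1 = 16 / (ρ * c0 ^ b) := ⟨_, rfl⟩
  have hC1pos : 0 < C1 := by rw [hC1]; positivity
  obtain ⟨C2, hC2⟩ : ∃ C2 : ℝ, C2 = 1 + 1 / (δ / 2) / Real.log 2 := ⟨_, rfl⟩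
  have hlog2 : 0 < Real.log 2 := Real.log_pos (by norm_num)
  have hC2pos : 0 < C2 := by rw [hC2]; positivity
  refine ⟨s, hs2, t + (C1 + 1) * C2, by positivity, ?_⟩
  intro n hn
  have hn1 : (1 : ℝ) ≤ n := by exact_mod_cast hn
  have hn0 : (0 : ℝ) < n := by linarith
  obtain ⟨D, hDdef⟩ : ∃ D : ℕ, D = ⌊C1 * (n : ℝ) ^ (1 + ε1 * b)⌋₊ + 1 := ⟨_, rfl⟩
  have hDpos : 0 < D := by omega
  have hD1 : C1 * (n : ℝ) ^ (1 + ε1 * b) < D := by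
    rw [hDdef]; push_cast
    exact Nat.lt_floor_add_one _
  have hD2 : (D : ℝ) ≤ (C1 + 1) * (n : ℝ) ^ (1 + δ / 2) := by
    have h1 : ((⌊C1 * (n : ℝ) ^ (1 + ε1 * b)⌋₊ : ℕ) : ℝ) ≤ C1 * (n : ℝ) ^ (1 + ε1 * b) :=
      Nat.floor_le (by positivity)
    have h2 : (n : ℝ) ^ (1 + ε1 * b) ≤ (n : ℝ) ^ (1 + δ / 2) :=
      Real.rpow_le_rpow_of_exponent_le hn1 (by linarith)
    have h3 : (1 : ℝ) ≤ (n : ℝ) ^ (1 + δ / 2) := Real.one_le_rpow hn1 (by positivity)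
    rw [hDdef]; push_cast
    nlinarith
  obtain ⟨β, hβ⟩ : ∃ β : ℝ, β = c0 * (n : ℝ) ^ (-ε1) := ⟨_, rfl⟩
  have hnε : 0 < (n : ℝ) ^ (-ε1) := Real.rpow_pos_of_pos hn0 _
  have hnε1 : (n : ℝ) ^ (-ε1) ≤ 1 := Real.rpow_le_one_of_one_le_of_nonpos hn1 (by linarith)
  have hβpos : 0 < β := by rw [hβ]; positivity
  have hβ1 : β ≤ 1 := by
    rw [hβ]
    exact mul_le_one₀ hc01 hnε.le hnε1
  refine ⟨D, hDpos, β, hβpos, hβ1, ?_, ?_⟩
  · rw [← hρ]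
    have hβb : 0 < β ^ b := pow_pos hβpos b
    -- first term
    have hβq : β ^ q ≤ c0 * (n : ℝ)⁻¹ := by
      rw [hβ, mul_pow]
      have h1 : c0 ^ q ≤ c0 := by
        calc c0 ^ q ≤ c0 ^ 1 := pow_le_pow_of_le_one hc0pos.le hc01 (by omega)
          _ = c0 := pow_one _
      have h2 : ((n : ℝ) ^ (-ε1)) ^ q ≤ (n : ℝ)⁻¹ := by
        rw [← Real.rpow_natCast, ← Real.rpow_mul hn0.le, ← Real.rpow_neg_one]
        exact Real.rpow_le_rpow_of_exponent_le hn1 (by linarith)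
      exact mul_le_mul h1 h2 (by positivity) hc0pos.le
    have hfirst : (n : ℝ) * (2 * (2 * β) ^ s) ≤ ρ / 4 * β ^ b := by
      have h1 : (2 * β) ^ s = 2 ^ s * (β ^ b * β ^ q) := by
        rw [mul_pow, hs, pow_add β]
      rw [h1]
      have h2 : (n : ℝ) * (2 * (2 ^ s * (β ^ b * β ^ q))) = (2 ^ (s + 1) * β ^ b * n) * β ^ q := by
        ring
      rw [h2]
      have h3 : (2 ^ (s + 1) * β ^ b * n) * β ^ q ≤ (2 ^ (s + 1) * β ^ b * n) * (c0 * (n : ℝ)⁻¹) :=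
        mul_le_mul_of_nonneg_left hβq (by positivity)
      refine le_trans h3 (le_of_eq ?_)
      rw [hc0]
      have hp : (2 : ℝ) ^ (s + 3) = 2 ^ (s + 1) * 4 := by ring
      rw [hp]
      field_simp
    -- second term
    have hsecond : (n : ℝ) * (2 * (4 / (D : ℝ))) < ρ / 2 * β ^ b := by
      have hD0 : (0 : ℝ) < D := by exact_mod_cast hDpos
      have h1 : (n : ℝ) * (2 * (4 / (D : ℝ))) = 8 * n / D := by ring
      rw [h1, div_lt_iff₀ hD0]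
      have h2 : β ^ b = c0 ^ b * ((n : ℝ) ^ (ε1 * b))⁻¹ := by
        rw [hβ, mul_pow, ← Real.rpow_natCast ((n : ℝ) ^ (-ε1)), ← Real.rpow_mul hn0.le,
          ← Real.rpow_neg hn0.le]
        congr 2
        ring
      have h3 : (n : ℝ) ^ (1 + ε1 * b) = n * (n : ℝ) ^ (ε1 * b) := by
        rw [Real.rpow_add hn0, Real.rpow_one]
      have h4 : 8 * (n : ℝ) = ρ / 2 * β ^ b * (C1 * (n : ℝ) ^ (1 + ε1 * b)) := by
        rw [h2, h3, hC1]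
        have h5 : 0 < (n : ℝ) ^ (ε1 * b) := Real.rpow_pos_of_pos hn0 _
        have h6 : 0 < c0 ^ b := pow_pos hc0pos b
        field_simp
        ring
      rw [h4]
      exact mul_lt_mul_of_pos_left hD1 (by positivity)
    have hsplit : (n : ℝ) * (2 * ((2 * β) ^ s + 4 / (D : ℝ)))
        = (n : ℝ) * (2 * (2 * β) ^ s) + (n : ℝ) * (2 * (4 / (D : ℝ))) := by ring
    rw [hsplit]
    have h7 : 0 < ρ * β ^ b := by positivity
    nlinarith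
  · push_cast
    have h1 : (t : ℝ) ≤ 2 ^ (t : ℝ) := by
      rw [Real.rpow_natCast]
      exact_mod_cast (Nat.lt_two_pow_self (n := t)).le
    have hlog : Real.logb 2 (2 * n) ≤ C2 * (n : ℝ) ^ (δ / 2) := by
      unfold Real.logb
      rw [Real.log_mul (by norm_num) hn0.ne', div_le_iff₀ hlog2]
      have h2 : Real.log n ≤ (n : ℝ) ^ (δ / 2) / (δ / 2) := Real.log_le_rpow_div hn0.le (by positivity)
      have h3 : (1 : ℝ) ≤ (n : ℝ) ^ (δ / 2) := Real.one_le_rpow hn1 (by positivity)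
      have h4 : C2 * (n : ℝ) ^ (δ / 2) * Real.log 2
          = (n : ℝ) ^ (δ / 2) * Real.log 2 + (n : ℝ) ^ (δ / 2) / (δ / 2) := by
        rw [hC2]
        field_simp
      rw [h4]
      nlinarith
    have h2n : (2 * (n : ℝ)) = 2 ^ (Real.logb 2 (2 * n)) := by
      rw [Real.rpow_logb (by norm_num) (by norm_num) (by positivity)]
    have h5 : (2 * (n : ℝ)) ^ D ≤ 2 ^ ((C1 + 1) * C2 * (n : ℝ) ^ (1 + δ)) := by
      have hlogpos : 0 ≤ Real.logb 2 (2 * n) := by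
        apply Real.logb_nonneg (by norm_num)
        linarith
      calc (2 * (n : ℝ)) ^ D = (2 ^ (Real.logb 2 (2 * n))) ^ D := by rw [← h2n]
        _ = 2 ^ (Real.logb 2 (2 * n) * D) := by
            rw [← Real.rpow_natCast, ← Real.rpow_mul (by norm_num)]
        _ ≤ 2 ^ ((C1 + 1) * C2 * (n : ℝ) ^ (1 + δ)) := by
            apply Real.rpow_le_rpow_of_exponent_le (by norm_num)
            calc Real.logb 2 (2 * n) * D
                ≤ (C2 * (n : ℝ) ^ (δ / 2)) * ((C1 + 1) * (n : ℝ) ^ (1 + δ / 2)) :=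
                  mul_le_mul hlog hD2 (by positivity) (by positivity)
              _ = (C1 + 1) * C2 * ((n : ℝ) ^ (1 + δ / 2) * (n : ℝ) ^ (δ / 2)) := by ring
              _ = (C1 + 1) * C2 * (n : ℝ) ^ (1 + δ) := by
                  rw [← Real.rpow_add hn0]
                  congr 2
                  ring
    have h6 : (1 : ℝ) ≤ (n : ℝ) ^ (1 + δ) := Real.one_le_rpow hn1 (by positivity)
    calc (t : ℝ) * (2 * (n : ℝ)) ^ D ≤ 2 ^ (t : ℝ) * 2 ^ ((C1 + 1) * C2 * (n : ℝ) ^ (1 + δ)) :=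
          mul_le_mul h1 h5 (by positivity) (by positivity)
      _ = 2 ^ ((t : ℝ) + (C1 + 1) * C2 * (n : ℝ) ^ (1 + δ)) := by
          rw [← Real.rpow_add (by norm_num)]
      _ ≤ 2 ^ (((t : ℝ) + (C1 + 1) * C2) * (n : ℝ) ^ (1 + δ)) := by
          apply Real.rpow_le_rpow_of_exponent_le (by norm_num)
          have ht0 : (0 : ℝ) ≤ t := Nat.cast_nonneg t
          nlinarith

end Pool.Agent.D12a3a
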