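import Mathlib

set_option autoImplicit false

namespace Pool.Agent.D12a3a

open Finset

/-- Finite Ramsey theorem for `r`-subsets and two colours. -/
theorem ramsey (r : ℕ) : ∀ m : ℕ, ∃ t : ℕ, ∀ {α : Type} [LinearOrder α] (S : Finset α)
    (c : Finset α → Bool), t ≤ S.card →
    ∃ A : Finset α, A ⊆ S ∧ A.card = m ∧ ∃ col : Bool, ∀ e ⊆ A, e.card = r → c e = col := by
  induction r with
  | zero =>
    intro m
    refine ⟨m, ?_⟩
    intro α _ S c hS
    obtain ⟨A, hA, hc⟩ := Finset.exists_subset_card_eq hS
    refine ⟨A, hA, hc, c ∅, ?_⟩
    intro e _ he
    rw [Finset.card_eq_zero] at he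
    rw [he]
  | succ r ih =>
    -- end-homogeneous sets
    have key : ∀ m : ℕ, ∃ t : ℕ, ∀ {α : Type} [LinearOrder α] (S : Finset α)
        (c : Finset α → Bool), t ≤ S.card →
        ∃ A : Finset α, A ⊆ S ∧ A.card = m ∧ ∃ col : α → Bool, ∀ x ∈ A, ∀ e ⊆ A, e.card = r →
          (∀ y ∈ e, x < y) → c (insert x e) = col x := by
      intro m
      induction m with
      | zero =>
        refine ⟨0, ?_⟩
        intro α _ S c _
        refine ⟨∅, Finset.empty_subset _, rfl, fun _ => true, ?_⟩
        intro x hx
        exact absurd hx (Finset.notMem_empty _)
      | succ m ihm =>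
        obtain ⟨t, ht⟩ := ihm
        obtain ⟨t', ht'⟩ := ih t
        refine ⟨t' + 1, ?_⟩
        intro α _ S c hS
        have hne : S.Nonempty := by
          rw [← Finset.card_pos]; omega
        set x := S.min' hne with hx
        have hxS : x ∈ S := S.min'_mem hne
        have hS' : t' ≤ (S.erase x).card := by
          rw [Finset.card_erase_of_mem hxS]; omega
        obtain ⟨S2, hS2, hS2c, colx, hcolx⟩ := ht' (S.erase x) (fun e => c (insert x e)) hS'
        obtain ⟨A, hA, hAc, col, hcol⟩ := ht S2 c (by omega)
        have hAS : A ⊆ S.erase x := hA.trans hS2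
        have hxA : x ∉ A := fun h => (Finset.notMem_erase x S) (hAS h)
        have hlt : ∀ y ∈ A, x < y := by
          intro y hy
          have hyS := Finset.mem_of_mem_erase (hAS hy)
          have h1 : x ≤ y := S.min'_le y hyS
          exact lt_of_le_of_ne h1 (fun h => hxA (by rw [h]; exact hy))
        refine ⟨insert x A, ?_, ?_, Function.update col x colx, ?_⟩
        · intro y hy
          rcases Finset.mem_insert.1 hy with h | h
          · rw [h]; exact hxS
          · exact Finset.mem_of_mem_erase (hAS h)
        · rw [Finset.card_insert_of_notMem hxA, hAc]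
        · intro y hy e he hec hey
          rcases Finset.mem_insert.1 hy with h | h
          · subst h
            rw [Function.update_self]
            apply hcolx e _ hec
            intro z hz
            rcases Finset.mem_insert.1 (he hz) with h' | h'
            · exact absurd (hey z hz) (by rw [h']; exact lt_irrefl _)
            · exact hA h'
          · have hyx : y ≠ x := fun h' => hxA (by rw [← h']; exact h)
            rw [Function.update_of_ne hyx]
            apply hcol y h e _ hec hey
            intro z hz
            rcases Finset.mem_insert.1 (he hz) with h' | h'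
            · have h1 := hey z hz
              have h2 := hlt y h
              rw [h'] at h1
              exact absurd (lt_trans h1 h2) (lt_irrefl _)
            · exact h'
    intro m
    obtain ⟨t, ht⟩ := key (2 * m)
    refine ⟨t, ?_⟩
    intro α _ S c hS
    obtain ⟨A, hA, hAc, col, hcol⟩ := ht S c hS
    have hpig : ∃ b : Bool, m ≤ (A.filter (fun x => col x = b)).card := by
      by_contra hcon
      push Not at hcon
      have h1 := hcon true
      have h2 := hcon false
      have h3 : (A.filter (fun x => col x = true)).card + (A.filter (fun x => col x = false)).card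
          = A.card := by
        have := Finset.card_filter_add_card_filter_not (s := A) (fun x => col x = true)
        simpa using this
      omega
    obtain ⟨b, hb⟩ := hpig
    obtain ⟨B, hB, hBc⟩ := Finset.exists_subset_card_eq hb
    have hBA : B ⊆ A := hB.trans (Finset.filter_subset _ _)
    refine ⟨B, hBA.trans hA, hBc, b, ?_⟩
    intro e he hec
    have hne : e.Nonempty := by
      rw [← Finset.card_pos]; omega
    set x := e.min' hne with hx
    have hxe : x ∈ e := e.min'_mem hne
    have h1 : insert x (e.erase x) = e := Finset.insert_erase hxe
    rw [← h1]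
    rw [hcol x (hBA (he hxe)) (e.erase x) ((Finset.erase_subset _ _).trans (he.trans hBA))]
    · have := hB (he hxe)
      exact (Finset.mem_filter.1 this).2
    · rw [Finset.card_erase_of_mem hxe, hec]; rfl
    · intro y hy
      have hye := Finset.mem_of_mem_erase hy
      have h2 : x ≤ y := e.min'_le y hye
      exact lt_of_le_of_ne h2 (fun h => (Finset.notMem_erase x e) (by rw [h] at hy ⊢; exact hy))

end Pool.Agent.D12a3a
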