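import Pool.Agent.D12a3a.Embed
import Pool.Agent.D12a3a.Ramsey
import Pool.Agent.D12a3a.Params

set_option autoImplicit false

namespace Pool.Agent.D12a3a

open Finset

/-- The arrow relation for colourings of finite sets of natural numbers. -/
theorem arrow_nat {n χ t s D b : ℕ} (E : Finset (Finset (Fin n))) (p : Fin n → Fin χ)
    (hp : Monotone p) (hpinj : ∀ e ∈ E, Set.InjOn p (e : Set (Fin n)))
    (hE : ∀ e ∈ E, e.card = 3) (hb : ∀ v, (Cn E v).card ≤ b)
    (hn : 0 < n) (hD : 0 < D) (hs : 2 ≤ s)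
    (ht : ∀ c : Finset (Fin t) → Bool, ∃ A : Finset (Fin t), A.card = χ ∧
      ∃ col : Bool, ∀ e ⊆ A, e.card = 3 → c e = col)
    (β : ℝ) (hβ : 0 < β) (hβ1 : β ≤ 1)
    (hcond : (n : ℝ) * (2 * ((2 * β) ^ s + 4 / (D : ℝ))) < ((1 : ℝ) / 2 ^ (t + 1)) ^ (s ^ t) * β ^ b)
    (c : Finset ℕ → Bool) :
    ∃ f : Fin n → ℕ, StrictMono f ∧ (∀ v, f v < t * (2 * n) ^ D) ∧
      ∃ col : Bool, ∀ e ∈ E, c (e.image f) = col := by
  classical
  obtain ⟨M, hM⟩ : ∃ M : ℕ, M = (2 * n) ^ D := ⟨_, rfl⟩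
  have hMpos : 0 < M := by rw [hM]; positivity
  have : Nonempty (Fin ((2 * n) ^ D)) := ⟨⟨0, by positivity⟩⟩
  -- the pattern
  let F : Finset (Fin t) × Bool → (Fin t → ℕ) → Prop := fun q z =>
    q.1.card = χ ∧ ∀ e ⊆ q.1, e.card = 3 → c (e.image (fun i : Fin t => (i : ℕ) * M + z i)) = q.2
  have hcov : ∀ y : Fin t → Fin ((2 * n) ^ D), (1 : ℝ) ≤ ∑ q, ind (F q (fun i => (y i : ℕ))) := by
    intro y
    obtain ⟨A, hA, col, hcol⟩ := ht (fun e => c (e.image (fun i : Fin t => (i : ℕ) * M + (y i : ℕ))))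
    have h1 : ind (F (A, col) (fun i => (y i : ℕ))) = 1 := ind_true ⟨hA, hcol⟩
    rw [← h1]
    exact Finset.single_le_sum (f := fun q => ind (F q (fun i => (y i : ℕ))))
      (fun q _ => ind_nonneg _) (Finset.mem_univ (A, col))
  have hav : (1 : ℝ) ≤ ∑ q, av (fun y : Fin t → Fin ((2 * n) ^ D) => ind (F q (fun i => (y i : ℕ)))) := by
    rw [← av_sum univ (fun q (y : Fin t → Fin ((2 * n) ^ D)) => ind (F q (fun i => (y i : ℕ))))]
    exact const_le_av hcov
  have hcardq : (Finset.univ : Finset (Finset (Fin t) × Bool)).card = 2 ^ (t + 1) := by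
    rw [Finset.card_univ, Fintype.card_prod, Fintype.card_finset, Fintype.card_fin, Fintype.card_bool]
    ring
  obtain ⟨⟨A, col⟩, -, hq⟩ := Finset.exists_le_of_sum_le
    (s := (Finset.univ : Finset (Finset (Fin t) × Bool)))
    (f := fun _ => (1 : ℝ) / 2 ^ (t + 1))
    (g := fun q => av (fun y : Fin t → Fin ((2 * n) ^ D) => ind (F q (fun i => (y i : ℕ)))))
    ⟨(∅, true), Finset.mem_univ _⟩ (by
      rw [Finset.sum_const, hcardq, nsmul_eq_mul]
      refine le_trans (le_of_eq ?_) hav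
      push_cast
      field_simp)
  have hρ : (0 : ℝ) < 1 / 2 ^ (t + 1) := by positivity
  have hAc : A.card = χ := by
    by_contra hne
    have h0 : av (fun y : Fin t → Fin ((2 * n) ^ D) => ind (F (A, col) (fun i => (y i : ℕ)))) ≤ 0 := by
      apply av_le_const
      intro y
      rw [ind_false]
      intro h
      exact hne h.1
    linarith
  have hPinj : Function.Injective (A.orderEmbOfFin hAc) := (A.orderEmbOfFin hAc).injective
  obtain ⟨x, hx1, hx2, hx3⟩ := density_embedding (s := s) (D := D)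
    (fun v => A.orderEmbOfFin hAc (p v)) E (F (A, col)) hn hD hs (1 / 2 ^ (t + 1)) β hβ hβ1 hρ hq
    (fun u v huv => (A.orderEmbOfFin hAc).monotone (hp huv))
    (fun e he => hPinj.comp_injOn (hpinj e he)) b hb hcond
  rw [← hM] at hx1
  refine ⟨fun v => ((A.orderEmbOfFin hAc (p v) : Fin t) : ℕ) * M + x v, ?_, ?_, col, ?_⟩
  · intro u v huv
    show ((A.orderEmbOfFin hAc (p u) : Fin t) : ℕ) * M + x u
      < ((A.orderEmbOfFin hAc (p v) : Fin t) : ℕ) * M + x v
    have h1 : A.orderEmbOfFin hAc (p u) ≤ A.orderEmbOfFin hAc (p v) :=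
      (A.orderEmbOfFin hAc).monotone (hp huv.le)
    rcases h1.eq_or_lt with h | h
    · rw [h]
      have := hx2 u v huv h
      omega
    · have h2 : ((A.orderEmbOfFin hAc (p u) : Fin t) : ℕ) + 1
          ≤ ((A.orderEmbOfFin hAc (p v) : Fin t) : ℕ) := h
      have h3 := Nat.mul_le_mul_right M h2
      have h4 := hx1 u
      nlinarith
  · intro v
    rw [← hM]
    show ((A.orderEmbOfFin hAc (p v) : Fin t) : ℕ) * M + x v < t * M
    have h2 : ((A.orderEmbOfFin hAc (p v) : Fin t) : ℕ) + 1 ≤ t := (A.orderEmbOfFin hAc (p v)).2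
    have h3 := Nat.mul_le_mul_right M h2
    have h4 := hx1 v
    nlinarith
  · intro e he
    obtain ⟨z, _, hFz, hz⟩ := hx3 e he
    have himg : (e.image (fun v => ((A.orderEmbOfFin hAc (p v) : Fin t) : ℕ) * M + x v))
        = (e.image (fun v => A.orderEmbOfFin hAc (p v))).image (fun i : Fin t => (i : ℕ) * M + z i) := by
      rw [Finset.image_image]
      apply Finset.image_congr
      intro u hu
      show ((A.orderEmbOfFin hAc (p u) : Fin t) : ℕ) * M + x u = _
      simp only [Function.comp_apply]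
      rw [hz u hu]
    rw [himg]
    apply hFz.2
    · intro i hi
      rw [Finset.mem_image] at hi
      obtain ⟨u, _, rfl⟩ := hi
      exact Finset.orderEmbOfFin_mem A hAc (p u)
    · exact (Finset.card_image_of_injOn (hPinj.comp_injOn (hpinj e he))).trans (hE e he)

/-- The earlier neighbours of `v` are few. -/
lemma Cn_card {n : ℕ} (E : Finset (Finset (Fin n))) (hE : ∀ e ∈ E, e.card = 3) (v : Fin n) :
    (Cn E v).card ≤ 2 * (E.filter (fun e => v ∈ e)).card := by
  classical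
  have h1 : Cn E v ⊆ (E.filter (fun e => v ∈ e)).biUnion (fun e => e.erase v) := by
    intro u hu
    simp only [Cn, Finset.mem_filter, Finset.mem_univ, true_and] at hu
    obtain ⟨huv, e, he, hue, hve⟩ := hu
    rw [Finset.mem_biUnion]
    exact ⟨e, Finset.mem_filter.2 ⟨he, hve⟩, Finset.mem_erase.2 ⟨huv.ne, hue⟩⟩
  refine le_trans (Finset.card_le_card h1) ?_
  refine le_trans Finset.card_biUnion_le ?_
  have h2 : ∀ e ∈ E.filter (fun e => v ∈ e), (e.erase v).card ≤ 2 := by
    intro e he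
    rw [Finset.mem_filter] at he
    rw [Finset.card_erase_of_mem he.2, hE e he.1]
  refine le_trans (Finset.sum_le_sum h2) ?_
  rw [Finset.sum_const, smul_eq_mul, mul_comm]

end Pool.Agent.D12a3a
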