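import Mathlib

set_option autoImplicit false

/-!
Averages over finite types: small library used for the ordered Ramsey bound.
-/

namespace Pool.Agent.D12a3a

open Finset

/-- The average of a real valued function over a finite type. -/
noncomputable def av {α : Type*} [Fintype α] (f : α → ℝ) : ℝ :=
  (∑ a, f a) / (Fintype.card α : ℝ)

section basic

variable {α β : Type*} [Fintype α] [Fintype β]

lemma card_pos_real [Nonempty α] : (0 : ℝ) < (Fintype.card α : ℝ) := by
  exact_mod_cast Fintype.card_pos

lemma av_mono {f g : α → ℝ} (h : ∀ a, f a ≤ g a) : av f ≤ av g := by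
  unfold av
  exact div_le_div_of_nonneg_right (Finset.sum_le_sum fun a _ => h a) (Nat.cast_nonneg _)

lemma av_congr {f g : α → ℝ} (h : ∀ a, f a = g a) : av f = av g := by
  have : f = g := funext h
  rw [this]

lemma av_const [Nonempty α] (c : ℝ) : av (fun _ : α => c) = c := by
  unfold av
  rw [Finset.sum_const, Finset.card_univ, nsmul_eq_mul]
  field_simp [ne_of_gt (card_pos_real (α := α))]

lemma av_nonneg {f : α → ℝ} (h : ∀ a, 0 ≤ f a) : 0 ≤ av f := by
  unfold av
  exact div_nonneg (Finset.sum_nonneg fun a _ => h a) (Nat.cast_nonneg _)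

lemma av_add (f g : α → ℝ) : av (fun a => f a + g a) = av f + av g := by
  unfold av
  rw [Finset.sum_add_distrib, add_div]

lemma av_sub (f g : α → ℝ) : av (fun a => f a - g a) = av f - av g := by
  unfold av
  rw [Finset.sum_sub_distrib, sub_div]

lemma av_mul_left (c : ℝ) (f : α → ℝ) : av (fun a => c * f a) = c * av f := by
  unfold av
  rw [← Finset.mul_sum, mul_div_assoc]

lemma av_sum {ι : Type*} (s : Finset ι) (f : ι → α → ℝ) :
    av (fun a => ∑ i ∈ s, f i a) = ∑ i ∈ s, av (f i) := by
  unfold av
  rw [Finset.sum_comm, Finset.sum_div]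

lemma av_comm (f : α → β → ℝ) : av (fun a => av (fun b => f a b)) = av (fun b => av (fun a => f a b)) := by
  unfold av
  simp only [← Finset.sum_div]
  rw [Finset.sum_comm, div_div, div_div, mul_comm]

lemma av_prod (f : α × β → ℝ) : av f = av (fun a => av (fun b => f (a, b))) := by
  unfold av
  simp only [← Finset.sum_div]
  rw [Fintype.sum_prod_type, Fintype.card_prod, div_div, Nat.cast_mul, mul_comm]

lemma av_le_const [Nonempty α] {f : α → ℝ} {c : ℝ} (h : ∀ a, f a ≤ c) : av f ≤ c := by
  calc av f ≤ av (fun _ : α => c) := av_mono h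
    _ = c := av_const c

lemma const_le_av [Nonempty α] {f : α → ℝ} {c : ℝ} (h : ∀ a, c ≤ f a) : c ≤ av f := by
  calc c = av (fun _ : α => c) := (av_const c).symm
    _ ≤ av f := av_mono h

lemma av_equiv (e : α ≃ β) (f : β → ℝ) : av (fun a => f (e a)) = av f := by
  unfold av
  rw [Equiv.sum_comp e f, Fintype.card_congr e]

/-- Jensen's inequality for powers. -/
lemma av_pow_le [Nonempty α] {f : α → ℝ} (h : ∀ a, 0 ≤ f a) (s : ℕ) :
    (av f) ^ s ≤ av (fun a => f a ^ s) := by
  have hc : (0 : ℝ) < (Fintype.card α : ℝ) := card_pos_real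
  have key := (convexOn_pow (𝕜 := ℝ) s).map_sum_le (t := (Finset.univ : Finset α))
    (w := fun _ => 1 / (Fintype.card α : ℝ)) (p := f)
    (fun _ _ => by positivity)
    (by rw [Finset.sum_const, Finset.card_univ, nsmul_eq_mul]; field_simp)
    (fun a _ => h a)
  simp only [smul_eq_mul] at key
  have e1 : av f = ∑ a, 1 / (Fintype.card α : ℝ) * f a := by
    unfold av
    rw [← Finset.mul_sum]; ring
  have e2 : av (fun a => f a ^ s) = ∑ a, 1 / (Fintype.card α : ℝ) * f a ^ s := by
    unfold av
    rw [← Finset.mul_sum]; ring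
  rw [e1, e2]
  exact key

/-- Independence of samples. -/
lemma av_pi_prod (s : ℕ) (f : α → ℝ) :
    av (fun T : Fin s → α => ∏ l, f (T l)) = (av f) ^ s := by
  classical
  unfold av
  rw [div_pow, Fintype.card_fun, Fintype.card_fin, Nat.cast_pow, Fintype.sum_pow]

end basic

section update

variable {ι Θ : Type*} [Fintype ι] [DecidableEq ι] [Fintype Θ]

/-- Resampling one coordinate does not change the average. -/
lemma av_update [Nonempty Θ] (j : ι) (Φ : (ι → Θ) → ℝ) :
    av Φ = av (fun θ : ι → Θ => av (fun c : Θ => Φ (Function.update θ j c))) := by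
  classical
  have h1 : av (fun θ : ι → Θ => av (fun c : Θ => Φ (Function.update θ j c)))
      = av (fun p : (ι → Θ) × Θ => Φ (Function.update p.1 j p.2)) :=
    (av_prod (fun p : (ι → Θ) × Θ => Φ (Function.update p.1 j p.2))).symm
  have h2 : av (fun p : (ι → Θ) × Θ => Φ (Function.update p.1 j p.2))
      = av (fun p : (ι → Θ) × Θ => Φ p.1) := by
    let e : (ι → Θ) × Θ ≃ (ι → Θ) × Θ :=
      { toFun := fun p => (Function.update p.1 j p.2, p.1 j)
        invFun := fun p => (Function.update p.1 j p.2, p.1 j)
        left_inv := by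
          rintro ⟨θ, c⟩
          simp
        right_inv := by
          rintro ⟨θ, c⟩
          simp }
    exact av_equiv e (fun p => Φ p.1)
  have h3 : av (fun p : (ι → Θ) × Θ => Φ p.1) = av Φ := by
    rw [av_prod]
    apply av_congr
    intro θ
    exact av_const (α := Θ) (Φ θ)
  rw [h1, h2, h3]

end update

/-- Choosing a good outcome inside an event. -/
lemma exists_of_av {α : Type*} [Fintype α] [Nonempty α] (A : α → Prop) [DecidablePred A]
    (f : α → ℝ) (hf : ∀ a, 0 ≤ f a) {p q : ℝ} (hp : 0 < p)
    (hA : p ≤ av (fun a => if A a then (1 : ℝ) else 0)) (hq : av f < p * q) :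
    ∃ a, A a ∧ f a < q := by
  by_contra hcon
  push Not at hcon
  have hq0 : 0 < q := by
    have h0 : 0 ≤ av f := av_nonneg hf
    have : 0 < p * q := lt_of_le_of_lt h0 hq
    exact (pos_iff_pos_of_mul_pos this).mp hp
  have h1 : av (fun a => q * (if A a then (1 : ℝ) else 0)) ≤ av f := by
    apply av_mono
    intro a
    split_ifs with h
    · simpa using hcon a h
    · simpa using hf a
  rw [av_mul_left] at h1
  nlinarith

end Pool.Agent.D12a3a
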