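import Pool.Agent.D12a3a.Avg

set_option autoImplicit false

namespace Pool.Agent.D12a3a

open Finset

/-- Merge two assignments: coordinates below `m` from `ξ`, the others from `η`. -/
def mrg {n : ℕ} {Ξ : Type*} (m : ℕ) (ξ η : Fin n → Ξ) : Fin n → Ξ :=
  fun u => if (u : ℕ) < m then ξ u else η u

lemma mrg_update_left {n : ℕ} {Ξ : Type*} (v : Fin n) (ξ η : Fin n → Ξ) (c : Ξ) :
    mrg ((v : ℕ) + 1) (Function.update ξ v c) η = Function.update (mrg (v : ℕ) ξ η) v c := by
  funext u
  unfold mrg
  by_cases huv : u = v
  · subst huv; simp
  · rw [Function.update_of_ne huv, Function.update_of_ne huv]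
    have h1 : (u : ℕ) ≠ v := fun h => huv (Fin.ext h)
    by_cases h2 : (u : ℕ) < v
    · rw [if_pos (by omega), if_pos h2]
    · rw [if_neg (by omega), if_neg h2]

lemma mrg_update_right {n : ℕ} {Ξ : Type*} (v : Fin n) (ξ η : Fin n → Ξ) (c : Ξ) :
    mrg (v : ℕ) ξ (Function.update η v c) = Function.update (mrg (v : ℕ) ξ η) v c := by
  funext u
  unfold mrg
  by_cases huv : u = v
  · subst huv; simp
  · rw [Function.update_of_ne huv, Function.update_of_ne huv]

/-- Sequential choice by conditional expectations. -/
theorem greedy {n : ℕ} {Ξ : Type*} [Fintype Ξ] [Nonempty Ξ] (G : Fin n → (Fin n → Ξ) → ℝ)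
    (C : Fin n → Finset (Fin n)) (good : Fin n → (Fin n → Ξ) → Ξ → Prop) (β : ℝ) (hβ : 0 < β)
    (hG0 : ∀ v ξ, 0 ≤ G v ξ)
    (hCG : ∀ v ξ ξ', (∀ u ∈ C v, ξ u = ξ' u) → G v ξ = G v ξ')
    (hC : ∀ v, ∀ u ∈ C v, u < v)
    (hdep : ∀ v ξ ξ', (∀ u, u < v → ξ u = ξ' u) → good v ξ = good v ξ')
    (hgood : ∀ v ξ, (∀ u, u < v → good u ξ (ξ u)) → G v ξ < 1 →
      β * (Fintype.card Ξ : ℝ) ≤ (Nat.card {c // good v ξ c} : ℝ))
    (h0 : ∑ v, β⁻¹ ^ (C v).card * av (G v) < 1) :
    ∃ ξ : Fin n → Ξ, ∀ v, good v ξ (ξ v) := by
  classical
  set lam : ℝ := β⁻¹ with hlam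
  have hlam0 : 0 < lam := inv_pos.mpr hβ
  let κ : ℕ → Fin n → (Fin n → Ξ) → ℝ := fun m v ξ => av (fun η => G v (mrg m ξ η))
  have hκ0 : ∀ m v ξ, 0 ≤ κ m v ξ := fun m v ξ => av_nonneg fun η => hG0 _ _
  let Φ : ℕ → (Fin n → Ξ) → ℝ := fun m ξ =>
    ∑ v ∈ univ.filter (fun v : Fin n => m ≤ (v : ℕ)),
      lam ^ ((C v).filter (fun u : Fin n => m ≤ (u : ℕ))).card * κ m v ξ
  have main : ∀ m : ℕ, m ≤ n → ∃ ξ : Fin n → Ξ,
      (∀ v : Fin n, (v : ℕ) < m → good v ξ (ξ v)) ∧ Φ m ξ < 1 := by
    intro m
    induction m with
    | zero =>
      intro _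
      obtain ⟨ξ⟩ : Nonempty (Fin n → Ξ) := inferInstance
      refine ⟨ξ, fun v hv => absurd hv (Nat.not_lt_zero _), ?_⟩
      have : Φ 0 ξ = ∑ v, lam ^ (C v).card * av (G v) := by
        simp only [Φ, κ]
        have e1 : univ.filter (fun v : Fin n => 0 ≤ (v : ℕ)) = univ := by simp
        rw [e1]
        apply Finset.sum_congr rfl
        intro v _
        have e2 : (C v).filter (fun u : Fin n => 0 ≤ (u : ℕ)) = C v := by simp
        rw [e2]
        congr 1
      rw [this]; exact h0
    | succ m ih =>
      intro hm
      obtain ⟨ξ, hξ, hΦ⟩ := ih (by omega)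
      let v : Fin n := ⟨m, by omega⟩
      have hv : (v : ℕ) = m := rfl
      -- the conditional value of `G v` is `G v ξ`
      have hκv : κ m v ξ = G v ξ := by
        simp only [κ]
        have : ∀ η, G v (mrg m ξ η) = G v ξ := by
          intro η
          apply hCG
          intro u hu
          have hu' : (u : ℕ) < m := hC v u hu
          simp [mrg, hu']
        rw [av_congr this, av_const]
      have hGv : G v ξ < 1 := by
        have h1 : lam ^ ((C v).filter (fun u : Fin n => m ≤ (u : ℕ))).card * κ m v ξ ≤ Φ m ξ := by
          apply Finset.single_le_sum (f := fun v : Fin n =>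
            lam ^ ((C v).filter (fun u : Fin n => m ≤ (u : ℕ))).card * κ m v ξ)
          · intro w _
            exact mul_nonneg (pow_nonneg hlam0.le _) (hκ0 _ _ _)
          · simp [hv]
        have h2 : (C v).filter (fun u : Fin n => m ≤ (u : ℕ)) = ∅ := by
          rw [Finset.filter_eq_empty_iff]
          intro u hu
          have hu' : (u : ℕ) < m := hC v u hu
          omega
        rw [h2, Finset.card_empty, pow_zero, one_mul, hκv] at h1
        linarith
      have hcard := hgood v ξ (fun u hu => hξ u hu) hGv
      set S : Finset Ξ := univ.filter (fun c => good v ξ c) with hS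
      have hcardS : β * (Fintype.card Ξ : ℝ) ≤ (S.card : ℝ) := by
        have : Nat.card {c // good v ξ c} = S.card := by
          rw [Nat.card_eq_fintype_card, Fintype.card_subtype]
        rwa [this] at hcard
      have hΞ : (0 : ℝ) < (Fintype.card Ξ : ℝ) := card_pos_real
      have hS0 : (0 : ℝ) < (S.card : ℝ) := lt_of_lt_of_le (mul_pos hβ hΞ) hcardS
      -- conditional averages
      have hK : ∀ w : Fin n, ∀ c : Ξ, κ (m + 1) w (Function.update ξ v c)
          = av (fun η => G w (Function.update (mrg m ξ η) v c)) := by
        intro w c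
        simp only [κ]
        apply av_congr
        intro η
        have := mrg_update_left v ξ η c
        rw [hv] at this
        rw [this]
      have hKav : ∀ w : Fin n, av (fun c : Ξ => κ (m + 1) w (Function.update ξ v c)) = κ m w ξ := by
        intro w
        rw [av_congr (hK w), av_comm]
        simp only [κ]
        rw [av_update v (fun η => G w (mrg m ξ η))]
        apply av_congr
        intro η
        apply av_congr
        intro c
        have := mrg_update_right v ξ η c
        rw [hv] at this
        rw [this]
      have hterm : ∀ w : Fin n, m + 1 ≤ (w : ℕ) →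
          ∑ c ∈ S, lam ^ ((C w).filter (fun u : Fin n => m + 1 ≤ (u : ℕ))).card *
            κ (m + 1) w (Function.update ξ v c)
          ≤ (S.card : ℝ) * (lam ^ ((C w).filter (fun u : Fin n => m ≤ (u : ℕ))).card * κ m w ξ) := by
        intro w _
        by_cases hvw : v ∈ C w
        · have e1 : (C w).filter (fun u : Fin n => m ≤ (u : ℕ))
              = insert v ((C w).filter (fun u : Fin n => m + 1 ≤ (u : ℕ))) := by
            ext u
            simp only [Finset.mem_filter, Finset.mem_insert]
            constructor
            · rintro ⟨h1, h2⟩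
              by_cases h3 : u = v
              · exact Or.inl h3
              · right
                refine ⟨h1, ?_⟩
                have : (u : ℕ) ≠ m := fun h => h3 (Fin.ext h)
                omega
            · rintro (h1 | ⟨h1, h2⟩)
              · subst h1; exact ⟨hvw, le_refl _⟩
              · exact ⟨h1, by omega⟩
          have e2 : v ∉ (C w).filter (fun u : Fin n => m + 1 ≤ (u : ℕ)) := by
            simp [hv]
          rw [e1, Finset.card_insert_of_notMem e2, pow_succ, ← Finset.mul_sum]
          set L := lam ^ ((C w).filter (fun u : Fin n => m + 1 ≤ (u : ℕ))).card with hL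
          have hL0 : 0 ≤ L := pow_nonneg hlam0.le _
          have h1 : ∑ c ∈ S, κ (m + 1) w (Function.update ξ v c)
              ≤ ∑ c, κ (m + 1) w (Function.update ξ v c) :=
            Finset.sum_le_sum_of_subset_of_nonneg (Finset.subset_univ _) (fun c _ _ => hκ0 _ _ _)
          have h2 : ∑ c, κ (m + 1) w (Function.update ξ v c) = (Fintype.card Ξ : ℝ) * κ m w ξ := by
            have := hKav w
            unfold av at this
            rw [div_eq_iff hΞ.ne'] at this
            rw [this]; ring
          have h3 : (Fintype.card Ξ : ℝ) ≤ (S.card : ℝ) * lam := by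
            rw [hlam]
            rw [← div_eq_mul_inv, le_div_iff₀ hβ]
            linarith
          have h4 : (Fintype.card Ξ : ℝ) * κ m w ξ ≤ (S.card : ℝ) * lam * κ m w ξ :=
            mul_le_mul_of_nonneg_right h3 (hκ0 _ _ _)
          calc L * ∑ c ∈ S, κ (m + 1) w (Function.update ξ v c)
              ≤ L * ((S.card : ℝ) * lam * κ m w ξ) :=
                mul_le_mul_of_nonneg_left (by linarith) hL0
            _ = _ := by ring
        · have e1 : (C w).filter (fun u : Fin n => m ≤ (u : ℕ))
              = (C w).filter (fun u : Fin n => m + 1 ≤ (u : ℕ)) := by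
            apply Finset.filter_congr
            intro u hu
            constructor
            · intro h
              have : (u : ℕ) ≠ m := fun h' => hvw (by
                have : u = v := Fin.ext h'
                rwa [← this])
              omega
            · intro h; omega
          rw [e1]
          have h1 : ∀ c, κ (m + 1) w (Function.update ξ v c) = κ m w ξ := by
            intro c
            rw [hK w c]
            simp only [κ]
            apply av_congr
            intro η
            apply hCG
            intro u hu
            have : u ≠ v := fun h => hvw (by rwa [← h])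
            rw [Function.update_of_ne this]
          simp only [h1]
          rw [Finset.sum_const, nsmul_eq_mul]
      have hsum : ∑ c ∈ S, Φ (m + 1) (Function.update ξ v c) ≤ (S.card : ℝ) * Φ m ξ := by
        simp only [Φ]
        rw [Finset.sum_comm, Finset.mul_sum]
        have h1 : ∑ w ∈ univ.filter (fun w : Fin n => m + 1 ≤ (w : ℕ)),
            ∑ c ∈ S, lam ^ ((C w).filter (fun u : Fin n => m + 1 ≤ (u : ℕ))).card *
              κ (m + 1) w (Function.update ξ v c)
            ≤ ∑ w ∈ univ.filter (fun w : Fin n => m + 1 ≤ (w : ℕ)), (S.card : ℝ) *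
              (lam ^ ((C w).filter (fun u : Fin n => m ≤ (u : ℕ))).card * κ m w ξ) := by
          apply Finset.sum_le_sum
          intro w hw
          exact hterm w (by simpa using hw)
        refine le_trans h1 ?_
        apply Finset.sum_le_sum_of_subset_of_nonneg
        · intro w hw
          simp only [Finset.mem_filter, Finset.mem_univ, true_and] at hw ⊢
          omega
        · intro w _ _
          exact mul_nonneg hS0.le (mul_nonneg (pow_nonneg hlam0.le _) (hκ0 _ _ _))
      have hex : ∃ c ∈ S, Φ (m + 1) (Function.update ξ v c) < 1 := by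
        by_contra hcon
        push Not at hcon
        have h1 : (S.card : ℝ) ≤ ∑ c ∈ S, Φ (m + 1) (Function.update ξ v c) := by
          have := Finset.sum_le_sum hcon
          simpa using this
        have h2 : (S.card : ℝ) * Φ m ξ < (S.card : ℝ) * 1 := mul_lt_mul_of_pos_left hΦ hS0
        linarith
      obtain ⟨c, hcS, hc⟩ := hex
      refine ⟨Function.update ξ v c, ?_, hc⟩
      intro u hu
      have hgc : good v ξ c := by simpa [hS] using hcS
      by_cases huv : u = v
      · subst huv
        rw [Function.update_self]
        have := hdep v (Function.update ξ v c) ξ (fun w hw => by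
          rw [Function.update_of_ne (ne_of_lt hw)])
        rw [this]; exact hgc
      · have hu' : (u : ℕ) < m := by
          have : (u : ℕ) ≠ m := fun h => huv (Fin.ext h)
          omega
        rw [Function.update_of_ne huv]
        have := hdep u (Function.update ξ v c) ξ (fun w hw => by
          have hw' : (w : ℕ) < (u : ℕ) := hw
          have : w ≠ v := fun h => by
            rw [h, hv] at hw'; omega
          rw [Function.update_of_ne this])
        rw [this]; exact hξ u hu'
  obtain ⟨ξ, hξ, _⟩ := main n le_rfl
  exact ⟨ξ, fun v => hξ v v.2⟩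

end Pool.Agent.D12a3a
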