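import Pool.Agent.D12a3a.Parts
import Pool.Agent.D12a3a.Greedy

set_option autoImplicit false

namespace Pool.Agent.D12a3a

open Finset

open Classical in
/-- Real valued indicator. -/
noncomputable def ind (p : Prop) : ℝ := if p then 1 else 0

lemma ind_nonneg (p : Prop) : 0 ≤ ind p := by unfold ind; split_ifs <;> norm_num
lemma ind_le_one (p : Prop) : ind p ≤ 1 := by unfold ind; split_ifs <;> norm_num
lemma ind_true {p : Prop} (h : p) : ind p = 1 := by unfold ind; rw [if_pos h]
lemma ind_false {p : Prop} (h : ¬ p) : ind p = 0 := by unfold ind; rw [if_neg h]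

section embed

variable {k n s D : ℕ}

/-- Admissible values of the coordinate `i` for the edge `e` at time `m`. -/
def adm (P : Fin n → Fin k) (θ : Fin k → Theta n D s) (x : Fin n → ℕ) (e : Finset (Fin n)) (m : ℕ)
    (i : Fin k) (y : ℕ) : Prop :=
  (∃ u ∈ e, (u : ℕ) < m ∧ P u = i ∧ y = x u) ∨
    ((∀ u ∈ e, (u : ℕ) < m → P u ≠ i) ∧ ∃ l, y = Tm (θ i) l)

/-- `y` is an allowed position of the vertex `v`. -/
def fv (P : Fin n → Fin k) (E : Finset (Finset (Fin n))) (F : (Fin k → ℕ) → Prop)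
    (θ : Fin k → Theta n D s) (x : Fin n → ℕ) (v : Fin n) (y : ℕ) : Prop :=
  ∀ e ∈ E, v ∈ e → ∀ z : Fin k → ℕ, (∀ i, i ≠ P v → adm P θ x e v i (z i)) → z (P v) = y → F z

/-- positions -/
def Xp (P : Fin n → Fin k) (θ : Fin k → Theta n D s) (ξ : Fin n → Fin ((2 * n) ^ D)) (u : Fin n) : ℕ :=
  Jm (θ (P u)) u (ξ u)

/-- earlier neighbours -/
def Cn (E : Finset (Finset (Fin n))) (v : Fin n) : Finset (Fin n) :=
  univ.filter (fun u => u < v ∧ ∃ e ∈ E, u ∈ e ∧ v ∈ e)

open Classical in
/-- The badness of the vertex `v`. -/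
noncomputable def Gb (P : Fin n → Fin k) (E : Finset (Finset (Fin n))) (F : (Fin k → ℕ) → Prop) (β : ℝ)
    (θ : Fin k → Theta n D s) (v : Fin n) (ξ : Fin n → Fin ((2 * n) ^ D)) : ℝ :=
  (∏ l, ind (fv P E F θ (Xp P θ ξ) v (Tm (θ (P v)) l))) *
    (if av (fun ξ' : Fin ((2 * n) ^ D) => ind (fv P E F θ (Xp P θ ξ) v (Jm (θ (P v)) v ξ'))) < β
      then (1 : ℝ) else 0)

variable (P : Fin n → Fin k) (E : Finset (Finset (Fin n))) (F : (Fin k → ℕ) → Prop)

lemma fv_congr {θ θ' : Fin k → Theta n D s} {x x' : Fin n → ℕ} {v : Fin n}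
    (hθ : ∀ i, i ≠ P v → θ i = θ' i)
    (hx : ∀ u ∈ Cn E v, P u ≠ P v → x u = x' u) :
    fv P E F θ x v = fv P E F θ' x' v := by
  funext y
  unfold fv
  have key : ∀ e ∈ E, v ∈ e → ∀ i, i ≠ P v → ∀ y, (adm P θ x e v i y ↔ adm P θ' x' e v i y) := by
    intro e he hve i hi y
    unfold adm
    rw [hθ i hi]
    have : (∃ u ∈ e, (u : ℕ) < v ∧ P u = i ∧ y = x u) ↔ (∃ u ∈ e, (u : ℕ) < v ∧ P u = i ∧ y = x' u) := by
      constructor
      · rintro ⟨u, hu, huv, hPu, hy⟩
        refine ⟨u, hu, huv, hPu, ?_⟩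
        rw [hy]
        apply hx u _ (by rw [hPu]; exact hi)
        simp only [Cn, Finset.mem_filter, Finset.mem_univ, true_and]
        exact ⟨huv, e, he, hu, hve⟩
      · rintro ⟨u, hu, huv, hPu, hy⟩
        refine ⟨u, hu, huv, hPu, ?_⟩
        rw [hy]
        symm
        apply hx u _ (by rw [hPu]; exact hi)
        simp only [Cn, Finset.mem_filter, Finset.mem_univ, true_and]
        exact ⟨huv, e, he, hu, hve⟩
    rw [this]
  apply propext
  constructor
  · intro h e he hve z hz hzv
    exact h e he hve z (fun i hi => (key e he hve i hi _).2 (hz i hi)) hzv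
  · intro h e he hve z hz hzv
    exact h e he hve z (fun i hi => (key e he hve i hi _).1 (hz i hi)) hzv

lemma Gb_nonneg (β : ℝ) (θ : Fin k → Theta n D s) (v : Fin n) (ξ : Fin n → Fin ((2 * n) ^ D)) :
    0 ≤ Gb P E F β θ v ξ := by
  unfold Gb
  apply mul_nonneg
  · exact Finset.prod_nonneg fun _ _ => ind_nonneg _
  · split_ifs <;> norm_num

/-- The expected badness of every vertex is small. -/
lemma Gb_av (hn : 0 < n) (hD : 0 < D) (hs : 2 ≤ s) (β : ℝ) (hβ : 0 < β) (v : Fin n) :
    av (fun θ : Fin k → Theta n D s => av (fun ξ => Gb P E F β θ v ξ)) ≤ 2 * ((2 * β) ^ s + 4 / D) := by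
  have hM : 0 < (2 * n) ^ D := by positivity
  have : Nonempty (Fin ((2 * n) ^ D)) := ⟨⟨0, hM⟩⟩
  have : Nonempty (Fin D) := ⟨⟨0, hD⟩⟩
  rw [av_comm]
  apply av_le_const
  intro ξ
  rw [av_update (P v)]
  apply av_le_const
  intro θ
  set f : ℕ → ℝ := fun y => ind (fv P E F θ (Xp P θ ξ) v y) with hf
  have h1 : ∀ c : Theta n D s, Gb P E F β (Function.update θ (P v) c) v ξ
      = (∏ l, f (Tm c l)) * (if av (fun ξ' : Fin ((2 * n) ^ D) => f (Jm c v ξ')) < β then (1 : ℝ) else 0) := by
    intro c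
    have hc : fv P E F (Function.update θ (P v) c) (Xp P (Function.update θ (P v) c) ξ) v
        = fv P E F θ (Xp P θ ξ) v := by
      apply fv_congr
      · intro i hi
        rw [Function.update_of_ne hi]
      · intro u _ hPu
        unfold Xp
        rw [Function.update_of_ne hPu]
    unfold Gb
    rw [hc, Function.update_self]
  rw [av_congr h1]
  exact Q1 hn hD hs f (fun _ => ind_nonneg _) (fun _ => ind_le_one _) β hβ v v.2

/-- The main density theorem for ordered partite patterns. -/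
theorem density_embedding (hn : 0 < n) (hD : 0 < D) (hs : 2 ≤ s) (ρ β : ℝ) (hβ : 0 < β) (hβ1 : β ≤ 1)
    (hρ : 0 < ρ)
    (hF : ρ ≤ av (fun y : Fin k → Fin ((2 * n) ^ D) => ind (F (fun i => (y i : ℕ)))))
    (hP : Monotone P) (hPinj : ∀ e ∈ E, Set.InjOn P (e : Set (Fin n)))
    (b : ℕ) (hb : ∀ v, (Cn E v).card ≤ b)
    (hcond : n * (2 * ((2 * β) ^ s + 4 / D)) < ρ ^ (s ^ k) * β ^ b) :
    ∃ x : Fin n → ℕ, (∀ v, x v < (2 * n) ^ D) ∧ (∀ u v, u < v → P u = P v → x u < x v) ∧
      ∀ e ∈ E, ∃ z : Fin k → ℕ, (∀ i, z i < (2 * n) ^ D) ∧ F z ∧ ∀ u ∈ e, z (P u) = x u := by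
  classical
  have hM : 0 < (2 * n) ^ D := by positivity
  have : Nonempty (Fin ((2 * n) ^ D)) := ⟨⟨0, hM⟩⟩
  have : Nonempty (Fin D) := ⟨⟨0, hD⟩⟩
  have hs0 : 0 < s := by omega
  -- the templates are complete with positive probability
  have hcomp := complete_est (s := s) hn hD k (fun z => ind (F z)) (fun z => ind_nonneg _)
  have hcomp' : ρ ^ (s ^ k) ≤ av (fun θ : Fin k → Theta n D s =>
      if (∀ τ : Fin k → Fin s, F (fun i => Tm (θ i) (τ i))) then (1 : ℝ) else 0) := by
    refine le_trans (pow_le_pow_left₀ hρ.le hF _) (le_trans hcomp (le_of_eq ?_))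
    apply av_congr
    intro θ
    by_cases h : ∀ τ : Fin k → Fin s, F (fun i => Tm (θ i) (τ i))
    · rw [if_pos h]
      exact Finset.prod_eq_one fun τ _ => ind_true (h τ)
    · rw [if_neg h]
      push Not at h
      obtain ⟨τ, hτ⟩ := h
      exact Finset.prod_eq_zero (Finset.mem_univ τ) (ind_false hτ)
  -- total expected badness
  have htot : av (fun θ : Fin k → Theta n D s => ∑ v, av (fun ξ => Gb P E F β θ v ξ))
      < ρ ^ (s ^ k) * β ^ b := by
    rw [av_sum univ (fun v (θ : Fin k → Theta n D s) => av (fun ξ => Gb P E F β θ v ξ))]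
    calc ∑ v, av (fun θ : Fin k → Theta n D s => av (fun ξ => Gb P E F β θ v ξ))
        ≤ ∑ _v : Fin n, 2 * ((2 * β) ^ s + 4 / D) :=
          Finset.sum_le_sum fun v _ => Gb_av P E F hn hD hs β hβ v
      _ = n * (2 * ((2 * β) ^ s + 4 / D)) := by
          rw [Finset.sum_const, Finset.card_univ, Fintype.card_fin, nsmul_eq_mul]
      _ < _ := hcond
  obtain ⟨θ, hθc, hθ⟩ := exists_of_av
    (fun θ : Fin k → Theta n D s => ∀ τ : Fin k → Fin s, F (fun i => Tm (θ i) (τ i)))
    (fun θ => ∑ v, av (fun ξ => Gb P E F β θ v ξ))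
    (fun θ => Finset.sum_nonneg fun v _ => av_nonneg fun ξ => Gb_nonneg P E F β θ v ξ)
    (pow_pos hρ _) hcomp' htot
  -- the invariant
  have hinv : ∀ m : ℕ, m ≤ n → ∀ ξ : Fin n → Fin ((2 * n) ^ D),
      (∀ v : Fin n, (v : ℕ) < m → fv P E F θ (Xp P θ ξ) v (Xp P θ ξ v)) →
      ∀ e ∈ E, ∀ z : Fin k → ℕ, (∀ i, adm P θ (Xp P θ ξ) e m i (z i)) → F z := by
    intro m
    induction m with
    | zero =>
      intro _ ξ _ e _ z hz
      have h1 : ∀ i, ∃ l, z i = Tm (θ i) l := by
        intro i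
        rcases hz i with ⟨u, _, hu, _⟩ | ⟨_, h⟩
        · exact absurd hu (Nat.not_lt_zero _)
        · exact h
      choose τ hτ using h1
      have : z = fun i => Tm (θ i) (τ i) := funext hτ
      rw [this]
      exact hθc τ
    | succ m ih =>
      intro hm ξ hξ e he z hz
      let v : Fin n := ⟨m, by omega⟩
      by_cases hve : v ∈ e
      · have hfv := hξ v (Nat.lt_succ_self m)
        apply hfv e he hve z
        · intro i hi
          rcases hz i with ⟨u, hu, hum, hPu, hy⟩ | ⟨h1, h2⟩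
          · left
            refine ⟨u, hu, ?_, hPu, hy⟩
            have : u ≠ v := fun h => hi (by rw [← hPu, h])
            have h3 : (u : ℕ) ≠ m := fun h => this (Fin.ext h)
            show (u : ℕ) < m
            omega
          · right
            refine ⟨fun u hu hum => h1 u hu ?_, h2⟩
            have : (u : ℕ) < m := hum
            omega
        · rcases hz (P v) with ⟨u, hu, _, hPu, hy⟩ | ⟨h1, _⟩
          · have : u = v := hPinj e he hu hve hPu
            rw [hy, this]
          · exact absurd rfl (h1 v hve (Nat.lt_succ_self m))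
      · apply ih (by omega) ξ (fun w hw => hξ w (by omega)) e he z
        intro i
        rcases hz i with ⟨u, hu, hum, hPu, hy⟩ | ⟨h1, h2⟩
        · left
          refine ⟨u, hu, ?_, hPu, hy⟩
          have : u ≠ v := fun h => hve (by rw [← h]; exact hu)
          have h3 : (u : ℕ) ≠ m := fun h => this (Fin.ext h)
          omega
        · right
          exact ⟨fun u hu hum => h1 u hu (by omega), h2⟩
  -- prefix version of the invariant
  have hinv' : ∀ v : Fin n, ∀ ξ : Fin n → Fin ((2 * n) ^ D),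
      (∀ u : Fin n, u < v → fv P E F θ (Xp P θ ξ) u (Xp P θ ξ u)) →
      ∀ l, fv P E F θ (Xp P θ ξ) v (Tm (θ (P v)) l) := by
    intro v ξ hξ l e he hve z hz hzv
    apply hinv v v.2.le ξ (fun u hu => hξ u hu) e he z
    intro i
    by_cases hi : i = P v
    · subst hi
      right
      refine ⟨?_, l, hzv⟩
      intro u hu huv hPu
      have : u = v := hPinj e he hu hve hPu
      rw [this] at huv
      exact lt_irrefl _ huv
    · exact hz i hi
  -- greedy choice
  obtain ⟨ξ, hξ⟩ := greedy (fun v ξ => Gb P E F β θ v ξ) (Cn E)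
    (fun v ξ c => fv P E F θ (Xp P θ ξ) v (Jm (θ (P v)) v c)) β hβ
    (fun v ξ => Gb_nonneg P E F β θ v ξ)
    (by
      intro v ξ ξ' h
      have : fv P E F θ (Xp P θ ξ) v = fv P E F θ (Xp P θ ξ') v := by
        apply fv_congr
        · intro i _; rfl
        · intro u hu _
          unfold Xp
          rw [h u hu]
      simp only [Gb, this])
    (by
      intro v u hu
      simp only [Cn, Finset.mem_filter, Finset.mem_univ, true_and] at hu
      exact hu.1)
    (by
      intro v ξ ξ' h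
      have : fv P E F θ (Xp P θ ξ) v = fv P E F θ (Xp P θ ξ') v := by
        apply fv_congr
        · intro i _; rfl
        · intro u hu _
          simp only [Cn, Finset.mem_filter, Finset.mem_univ, true_and] at hu
          unfold Xp
          rw [h u hu.1]
      simp only [this])
    (by
      intro v ξ h hG
      have hT := hinv' v ξ h
      have h1 : ∏ l, ind (fv P E F θ (Xp P θ ξ) v (Tm (θ (P v)) l)) = 1 :=
        Finset.prod_eq_one fun l _ => ind_true (hT l)
      have h2 : ¬ (av (fun ξ' : Fin ((2 * n) ^ D) =>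
          ind (fv P E F θ (Xp P θ ξ) v (Jm (θ (P v)) v ξ'))) < β) := by
        intro hlt
        have : Gb P E F β θ v ξ = 1 := by
          unfold Gb
          rw [h1, if_pos hlt, one_mul]
        rw [this] at hG
        exact lt_irrefl _ hG
      push Not at h2
      unfold av at h2
      have hc : (0 : ℝ) < (Fintype.card (Fin ((2 * n) ^ D)) : ℝ) := card_pos_real
      rw [le_div_iff₀ hc] at h2
      refine le_trans h2 (le_of_eq ?_)
      have h3 : ∀ c : Fin ((2 * n) ^ D), ind (fv P E F θ (Xp P θ ξ) v (Jm (θ (P v)) v c))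
          = if fv P E F θ (Xp P θ ξ) v (Jm (θ (P v)) v c) then (1 : ℝ) else 0 := by
        intro c
        unfold ind
        congr
      simp only [h3]
      rw [Finset.sum_boole, Nat.card_eq_fintype_card, Fintype.card_subtype])
    (by
      have h1 : ∀ v ∈ (univ : Finset (Fin n)), β⁻¹ ^ (Cn E v).card * av (Gb P E F β θ v)
          ≤ β⁻¹ ^ b * av (Gb P E F β θ v) := by
        intro v _
        apply mul_le_mul_of_nonneg_right
        · exact pow_le_pow_right₀ ((one_le_inv₀ hβ).2 hβ1) (hb v)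
        · exact av_nonneg fun ξ => Gb_nonneg P E F β θ v ξ
      have h2 := Finset.sum_le_sum h1
      rw [← Finset.mul_sum] at h2
      have hβb : 0 < β ^ b := pow_pos hβ b
      have h3 : β⁻¹ ^ b * ∑ v, av (Gb P E F β θ v) < 1 := by
        rw [inv_pow, inv_mul_lt_iff₀ hβb, mul_one]
        exact hθ
      exact lt_of_le_of_lt h2 h3)
  refine ⟨Xp P θ ξ, ?_, ?_, ?_⟩
  · intro v
    exact Jm_lt hn v.2 _
  · intro u v huv hPuv
    unfold Xp
    rw [hPuv]
    exact Jm_lt_Jm hn huv _ _
  · intro e he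
    have hall := hinv n le_rfl ξ (fun v _ => hξ v) e he
    -- choose a completion
    let z : Fin k → ℕ := fun i => if h : ∃ u ∈ e, P u = i then Xp P θ ξ h.choose else Tm (θ i) ⟨0, hs0⟩
    have hz1 : ∀ u ∈ e, z (P u) = Xp P θ ξ u := by
      intro u hu
      have h : ∃ w ∈ e, P w = P u := ⟨u, hu, rfl⟩
      simp only [z]
      rw [dif_pos h]
      congr 1
      exact hPinj e he h.choose_spec.1 hu h.choose_spec.2
    refine ⟨z, ?_, ?_, hz1⟩
    · intro i
      by_cases h : ∃ u ∈ e, P u = i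
      · simp only [z]
        rw [dif_pos h]
        exact Jm_lt hn h.choose.2 _
      · simp only [z]
        rw [dif_neg h]
        exact Tm_lt hn _
    · apply hall z
      intro i
      by_cases h : ∃ u ∈ e, P u = i
      · left
        obtain ⟨u, hu, hPu⟩ := h
        exact ⟨u, hu, u.2, hPu, by rw [← hPu]; exact hz1 u hu⟩
      · right
        refine ⟨fun u hu _ hPu => h ⟨u, hu, hPu⟩, ⟨0, hs0⟩, ?_⟩
        simp only [z]
        rw [dif_neg h]

end embed

end Pool.Agent.D12a3a
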