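import Pool.Agent.D12a3a.Avg

set_option autoImplicit false

namespace Pool.Agent.D12a3a

open Finset

/-- Average of `f` over the block number `q` of length `m`. -/
noncomputable def blk (f : ℕ → ℝ) (m q : ℕ) : ℝ := av (fun r : Fin m => f (q * m + r))

lemma av_finProd {K m : ℕ} (h : ℕ → ℝ) :
    av (fun z : Fin (K * m) => h z) = av (fun q : Fin K => av (fun r : Fin m => h (r + m * q))) := by
  rw [← av_equiv (finProdFinEquiv (m := K) (n := m)) (fun z : Fin (K * m) => h z), av_prod]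
  rfl

lemma av_div {K m : ℕ} (hm : 0 < m) (h : ℕ → ℝ) :
    av (fun z : Fin (K * m) => h (z / m)) = av (fun q : Fin K => h q) := by
  have : Nonempty (Fin m) := ⟨⟨0, hm⟩⟩
  rw [av_finProd (fun z => h (z / m))]
  apply av_congr
  intro q
  have : ∀ r : Fin m, h (((r : ℕ) + m * (q : ℕ)) / m) = h q := by
    intro r
    congr 1
    rw [Nat.add_mul_div_left _ _ hm, Nat.div_eq_of_lt r.2, Nat.zero_add]
  rw [av_congr this, av_const]

lemma av_mod {K m : ℕ} (hK : 0 < K) (h : ℕ → ℝ) :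
    av (fun z : Fin (K * m) => h (z % m)) = av (fun r : Fin m => h r) := by
  have : Nonempty (Fin K) := ⟨⟨0, hK⟩⟩
  rw [av_finProd (fun z => h (z % m))]
  have : ∀ q : Fin K, av (fun r : Fin m => h (((r : ℕ) + m * (q : ℕ)) % m)) = av (fun r : Fin m => h r) := by
    intro q
    apply av_congr
    intro r
    congr 1
    rw [Nat.add_mul_mod_self_left, Nat.mod_eq_of_lt r.2]
  rw [av_congr this, av_const]

lemma blk_split (f : ℕ → ℝ) (R m p : ℕ) :
    blk f (R * m) p = av (fun c : Fin R => blk f m (p * R + c)) := by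
  unfold blk
  rw [av_finProd (fun x => f (p * (R * m) + x))]
  apply av_congr
  intro c
  apply av_congr
  intro r
  congr 1
  ring

lemma blk_nonneg {f : ℕ → ℝ} (hf : ∀ x, 0 ≤ f x) (m q : ℕ) : 0 ≤ blk f m q :=
  av_nonneg fun _ => hf _

lemma blk_le_one {f : ℕ → ℝ} (hf : ∀ x, f x ≤ 1) {m : ℕ} (hm : 0 < m) (q : ℕ) : blk f m q ≤ 1 := by
  have : Nonempty (Fin m) := ⟨⟨0, hm⟩⟩
  exact av_le_const fun _ => hf _

/-- A quantitative Bernoulli inequality. -/
lemma bern (s : ℕ) (hs : 2 ≤ s) (t : ℝ) (ht0 : 0 ≤ t) (ht1 : t ≤ 1) :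
    (1 - t) ^ 2 ≤ t ^ s + s * (1 - t) - 1 := by
  induction s, hs using Nat.le_induction with
  | base => push_cast; nlinarith
  | succ s hs ih =>
    have h2 : (2 : ℝ) ≤ (s : ℝ) := by exact_mod_cast hs
    have h3 : t * ((1 - t) ^ 2) ≤ t * (t ^ s + s * (1 - t) - 1) := mul_le_mul_of_nonneg_left ih ht0
    have h4 : 0 ≤ (1 - t) ^ 2 := sq_nonneg _
    have h5 : 0 ≤ ((s : ℝ) - 1) * (1 - t) ^ 2 := mul_nonneg (by linarith) h4
    have h6 : 0 ≤ t * (1 - t) ^ 2 := mul_nonneg ht0 h4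
    have h7 : t ^ (s + 1) = t * t ^ s := pow_succ' t s
    rw [h7]
    push_cast
    nlinarith

/-- Bernoulli's inequality without upper bound on the variable. -/
lemma bern0 (s : ℕ) (t : ℝ) (ht0 : 0 ≤ t) :
    0 ≤ t ^ s - 1 - s * (t - 1) := by
  have := one_add_mul_le_pow (a := t - 1) (by linarith) s
  have e : (1 + (t - 1)) = t := by ring
  rw [e] at this
  linarith

/-- Pointwise inequality: `x` the mean, `y` the value at a child. -/
lemma pointwise (s : ℕ) (hs : 2 ≤ s) (x y β : ℝ) (hx : 2 * β < x) (hβ : 0 < β) (hy : 0 ≤ y) :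
    x ^ s * (if y < β then (1 : ℝ) else 0) ≤ 4 * (y ^ s - x ^ s - s * x ^ (s - 1) * (y - x)) := by
  have hx0 : 0 < x := by linarith
  set t := y / x with ht
  have hy' : y = t * x := by rw [ht]; field_simp
  have ht0 : 0 ≤ t := div_nonneg hy hx0.le
  have hxs : x ^ s = x ^ (s - 1) * x := by
    rw [← pow_succ]; congr 1; omega
  have e : y ^ s - x ^ s - s * x ^ (s - 1) * (y - x) = x ^ s * (t ^ s - 1 - s * (t - 1)) := by
    rw [hy', mul_pow]
    have : (s : ℝ) * x ^ (s - 1) * (t * x - x) = s * (t - 1) * (x ^ (s - 1) * x) := by ring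
    rw [this, ← hxs]; ring
  rw [e]
  have hxs0 : 0 < x ^ s := pow_pos hx0 s
  split_ifs with h
  · have ht2 : t < 1 / 2 := by
      rw [ht, div_lt_iff₀ hx0]; linarith
    have hb := bern s hs t ht0 (by linarith)
    have h1 : (1 : ℝ) / 4 ≤ (1 - t) ^ 2 := by nlinarith
    have h2 : (1 : ℝ) / 4 ≤ t ^ s - 1 - s * (t - 1) := by linarith
    have h3 := mul_le_mul_of_nonneg_left h2 hxs0.le
    linarith
  · have h2 := bern0 s t ht0
    have h3 := mul_nonneg hxs0.le h2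
    linarith

/-- One step estimate: `ν` the mean of the children averages `ν_c`. -/
lemma step_est {R : ℕ} (hR : 0 < R) (s : ℕ) (hs : 2 ≤ s) (ν : Fin R → ℝ) (hν : ∀ c, 0 ≤ ν c)
    (β : ℝ) (hβ : 0 < β) :
    av (fun c => (av ν) ^ s * (if ν c < β then (1 : ℝ) else 0))
      ≤ (2 * β) ^ s + 4 * (av (fun c => ν c ^ s) - (av ν) ^ s) := by
  have : Nonempty (Fin R) := ⟨⟨0, hR⟩⟩
  have hJ := av_pow_le hν s
  have hν0 : 0 ≤ av ν := av_nonneg hν
  by_cases h : 2 * β < av ν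
  · have h1 : av (fun c => (av ν) ^ s * (if ν c < β then (1 : ℝ) else 0))
        ≤ av (fun c => 4 * (ν c ^ s - (av ν) ^ s - s * (av ν) ^ (s - 1) * (ν c - av ν))) :=
      av_mono fun c => pointwise s hs (av ν) (ν c) β h hβ (hν c)
    have h2 : av (fun c => 4 * (ν c ^ s - (av ν) ^ s - s * (av ν) ^ (s - 1) * (ν c - av ν)))
        = 4 * (av (fun c => ν c ^ s) - (av ν) ^ s) := by
      rw [av_mul_left]
      congr 1
      rw [av_sub (fun c => ν c ^ s - (av ν) ^ s) (fun c => s * (av ν) ^ (s - 1) * (ν c - av ν))]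
      rw [av_sub (fun c => ν c ^ s) (fun _ => (av ν) ^ s), av_const, av_mul_left,
        av_sub (fun c => ν c) (fun _ => av ν), av_const]
      ring
    have h3 : 0 ≤ (2 * β) ^ s := by positivity
    linarith
  · push Not at h
    have h1 : av (fun c => (av ν) ^ s * (if ν c < β then (1 : ℝ) else 0)) ≤ (av ν) ^ s := by
      apply av_le_const
      intro c
      split_ifs
      · simp
      · simpa using pow_nonneg hν0 s
    have h2 : (av ν) ^ s ≤ (2 * β) ^ s := pow_le_pow_left₀ hν0 h s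
    linarith

/-- Shift averaging. -/
lemma shift_est {n : ℕ} (hn : 0 < n) (h : ℕ → ℝ) (hh : ∀ x, 0 ≤ h x) (v : ℕ) (hv : v < n) :
    av (fun a : Fin (n + 1) => h (a + v)) ≤ 2 * av (fun c : Fin (2 * n) => h c) := by
  unfold av
  rw [Fintype.card_fin, Fintype.card_fin]
  have h1 : ∑ a : Fin (n + 1), h (a + v) ≤ ∑ c : Fin (2 * n), h c := by
    rw [Fin.sum_univ_eq_sum_range (fun a => h (a + v)) (n + 1),
      Fin.sum_univ_eq_sum_range (fun a => h a) (2 * n)]
    have : ∑ a ∈ range (n + 1), h (a + v) = ∑ c ∈ (range (n + 1)).map (addRightEmbedding v), h c := by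
      rw [Finset.sum_map]; rfl
    rw [this]
    apply Finset.sum_le_sum_of_subset_of_nonneg
    · intro x hx
      simp only [Finset.mem_map, Finset.mem_range, addRightEmbedding_apply] at hx ⊢
      obtain ⟨a, ha, rfl⟩ := hx
      omega
    · intro x _ _
      exact hh x
  have h0 : 0 ≤ ∑ c : Fin (2 * n), h c := Finset.sum_nonneg fun c _ => hh c
  have hn' : (0 : ℝ) < n := by exact_mod_cast hn
  push_cast
  calc (∑ a : Fin (n + 1), h (a + v)) / ((n : ℝ) + 1) ≤ (∑ c : Fin (2 * n), h c) / ((n : ℝ) + 1) :=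
        div_le_div_of_nonneg_right h1 (by positivity)
    _ ≤ (∑ c : Fin (2 * n), h c) / n := by
        apply div_le_div_of_nonneg_left h0 hn'
        linarith
    _ = 2 * ((∑ c : Fin (2 * n), h c) / (2 * (n : ℝ))) := by field_simp

/-- The random data of one part. -/
abbrev Theta (n D s : ℕ) : Type :=
  Fin D × Fin ((2 * n) ^ D) × Fin (n + 1) × (Fin s → Fin ((2 * n) ^ D))

/-- Block length at depth `g`. -/
def bl (n D g : ℕ) : ℕ := (2 * n) ^ (D - g)

/-- The template points. -/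
def Tm {n D s : ℕ} (θ : Theta n D s) (l : Fin s) : ℕ :=
  ((θ.2.1 : ℕ) / bl n D θ.1) * bl n D θ.1 + (θ.2.2.2 l : ℕ) % bl n D θ.1

/-- The number of the child block used by the vertex `v`. -/
def Jb {n D s : ℕ} (θ : Theta n D s) (v : ℕ) : ℕ :=
  ((θ.2.1 : ℕ) / bl n D θ.1) * (2 * n) + ((θ.2.2.1 : ℕ) + v)

/-- The points of the child block used by the vertex `v`. -/
def Jm {n D s : ℕ} (θ : Theta n D s) (v : ℕ) (ξ : Fin ((2 * n) ^ D)) : ℕ :=
  Jb θ v * bl n D (θ.1 + 1) + (ξ : ℕ) % bl n D (θ.1 + 1)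

section facts

variable {n D s : ℕ}

lemma bl_pos (hn : 0 < n) (g : ℕ) : 0 < bl n D g := by
  unfold bl; positivity

lemma bl_succ {g : ℕ} (hg : g < D) : bl n D g = (2 * n) * bl n D (g + 1) := by
  unfold bl
  rw [← pow_succ']
  congr 1; omega

lemma M_eq {g : ℕ} (hg : g ≤ D) : (2 * n) ^ D = (2 * n) ^ g * bl n D g := by
  unfold bl
  rw [← pow_add]
  congr 1; omega

lemma Jm_lt_Jm {θ : Theta n D s} (hn : 0 < n) {u v : ℕ} (h : u < v) (ξ ξ' : Fin ((2 * n) ^ D)) :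
    Jm θ u ξ < Jm θ v ξ' := by
  unfold Jm
  have hb : 0 < bl n D (θ.1 + 1) := bl_pos hn _
  have h1 : (ξ : ℕ) % bl n D (θ.1 + 1) < bl n D (θ.1 + 1) := Nat.mod_lt _ hb
  have h2 : Jb θ u + 1 ≤ Jb θ v := by unfold Jb; omega
  calc Jb θ u * bl n D (θ.1 + 1) + (ξ : ℕ) % bl n D (θ.1 + 1)
      < Jb θ u * bl n D (θ.1 + 1) + bl n D (θ.1 + 1) := by omega
    _ = (Jb θ u + 1) * bl n D (θ.1 + 1) := by ring
    _ ≤ Jb θ v * bl n D (θ.1 + 1) := Nat.mul_le_mul_right _ h2
    _ ≤ _ := Nat.le_add_right _ _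

lemma Tm_lt {θ : Theta n D s} (hn : 0 < n) (l : Fin s) : Tm θ l < (2 * n) ^ D := by
  unfold Tm
  have hb : 0 < bl n D θ.1 := bl_pos hn _
  have h1 : (θ.2.2.2 l : ℕ) % bl n D θ.1 < bl n D θ.1 := Nat.mod_lt _ hb
  have h2 : (θ.2.1 : ℕ) / bl n D θ.1 < (2 * n) ^ (θ.1 : ℕ) := by
    rw [Nat.div_lt_iff_lt_mul hb, ← M_eq θ.1.2.le]
    exact θ.2.1.2
  calc ((θ.2.1 : ℕ) / bl n D θ.1) * bl n D θ.1 + (θ.2.2.2 l : ℕ) % bl n D θ.1
      < ((θ.2.1 : ℕ) / bl n D θ.1) * bl n D θ.1 + bl n D θ.1 := by omega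
    _ = ((θ.2.1 : ℕ) / bl n D θ.1 + 1) * bl n D θ.1 := by ring
    _ ≤ (2 * n) ^ (θ.1 : ℕ) * bl n D θ.1 := Nat.mul_le_mul_right _ h2
    _ = (2 * n) ^ D := (M_eq θ.1.2.le).symm

lemma Jm_lt {θ : Theta n D s} (hn : 0 < n) {v : ℕ} (hv : v < n) (ξ : Fin ((2 * n) ^ D)) :
    Jm θ v ξ < (2 * n) ^ D := by
  unfold Jm
  have hb : 0 < bl n D (θ.1 + 1) := bl_pos hn _
  have hb' : 0 < bl n D θ.1 := bl_pos hn _
  have h1 : (ξ : ℕ) % bl n D (θ.1 + 1) < bl n D (θ.1 + 1) := Nat.mod_lt _ hb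
  have h2 : (θ.2.1 : ℕ) / bl n D θ.1 < (2 * n) ^ (θ.1 : ℕ) := by
    rw [Nat.div_lt_iff_lt_mul hb', ← M_eq θ.1.2.le]
    exact θ.2.1.2
  have h3 : Jb θ v + 1 ≤ (2 * n) ^ ((θ.1 : ℕ) + 1) := by
    unfold Jb
    have ha : (θ.2.2.1 : ℕ) + v + 1 ≤ 2 * n := by
      have := θ.2.2.1.2; omega
    calc ((θ.2.1 : ℕ) / bl n D θ.1) * (2 * n) + ((θ.2.2.1 : ℕ) + v) + 1
        ≤ ((θ.2.1 : ℕ) / bl n D θ.1) * (2 * n) + 2 * n := by omega
      _ = ((θ.2.1 : ℕ) / bl n D θ.1 + 1) * (2 * n) := by ring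
      _ ≤ (2 * n) ^ (θ.1 : ℕ) * (2 * n) := Nat.mul_le_mul_right _ h2
      _ = (2 * n) ^ ((θ.1 : ℕ) + 1) := (pow_succ _ _).symm
  calc Jb θ v * bl n D (θ.1 + 1) + (ξ : ℕ) % bl n D (θ.1 + 1)
      < Jb θ v * bl n D (θ.1 + 1) + bl n D (θ.1 + 1) := by omega
    _ = (Jb θ v + 1) * bl n D (θ.1 + 1) := by ring
    _ ≤ (2 * n) ^ ((θ.1 : ℕ) + 1) * bl n D (θ.1 + 1) := Nat.mul_le_mul_right _ h3
    _ = (2 * n) ^ D := (M_eq θ.1.2).symm

/-- Uniform points modulo the block length give the block average. -/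
lemma av_block (hn : 0 < n) {g : ℕ} (hg : g ≤ D) (f : ℕ → ℝ) (q : ℕ) :
    av (fun ξ : Fin ((2 * n) ^ D) => f (q * bl n D g + (ξ : ℕ) % bl n D g)) = blk f (bl n D g) q := by
  unfold blk
  have h := av_mod (K := (2 * n) ^ g) (m := bl n D g) (by positivity) (fun r => f (q * bl n D g + r))
  rw [← M_eq hg] at h
  exact h

lemma av_Jm (hn : 0 < n) (θ : Theta n D s) (f : ℕ → ℝ) (v : ℕ) :
    av (fun ξ : Fin ((2 * n) ^ D) => f (Jm θ v ξ)) = blk f (bl n D (θ.1 + 1)) (Jb θ v) :=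
  av_block hn θ.1.2 f (Jb θ v)

/-- The moment at depth `g`. -/
noncomputable def Mo (n D s : ℕ) (f : ℕ → ℝ) (g : ℕ) : ℝ :=
  av (fun z : Fin ((2 * n) ^ D) => blk f (bl n D g) ((z : ℕ) / bl n D g) ^ s)

lemma av_blocks (hn : 0 < n) {g : ℕ} (hg : g ≤ D) (h : ℕ → ℝ) :
    av (fun z : Fin ((2 * n) ^ D) => h ((z : ℕ) / bl n D g)) = av (fun q : Fin ((2 * n) ^ g) => h q) := by
  have h1 := av_div (K := (2 * n) ^ g) (m := bl n D g) (bl_pos hn g) h
  rw [← M_eq hg] at h1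
  exact h1

lemma Mo_succ (hn : 0 < n) {g : ℕ} (hg : g < D) (f : ℕ → ℝ) :
    av (fun z : Fin ((2 * n) ^ D) => av (fun c : Fin (2 * n) =>
      blk f (bl n D (g + 1)) (((z : ℕ) / bl n D g) * (2 * n) + c) ^ s)) = Mo n D s f (g + 1) := by
  unfold Mo
  rw [av_blocks hn hg.le (fun p => av (fun c : Fin (2 * n) =>
      blk f (bl n D (g + 1)) (p * (2 * n) + c) ^ s))]
  rw [av_blocks hn hg (fun q => blk f (bl n D (g + 1)) q ^ s)]
  have h := av_finProd (K := (2 * n) ^ g) (m := 2 * n) (fun q => blk f (bl n D (g + 1)) q ^ s)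
  rw [← pow_succ] at h
  rw [h]
  apply av_congr
  intro p
  apply av_congr
  intro c
  congr 2
  ring

end facts

/-- Property (Q1): for a fixed test function, the chance that all template points are good while the
child block of `v` is poor is small. -/
theorem Q1 {n D s : ℕ} (hn : 0 < n) (hD : 0 < D) (hs : 2 ≤ s) (f : ℕ → ℝ) (hf0 : ∀ x, 0 ≤ f x)
    (hf1 : ∀ x, f x ≤ 1) (β : ℝ) (hβ : 0 < β) (v : ℕ) (hv : v < n) :
    av (fun θ : Theta n D s => (∏ l, f (Tm θ l)) *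
      (if av (fun ξ : Fin ((2 * n) ^ D) => f (Jm θ v ξ)) < β then (1 : ℝ) else 0))
      ≤ 2 * ((2 * β) ^ s + 4 / D) := by
  have : Nonempty (Fin D) := ⟨⟨0, hD⟩⟩
  have : Nonempty (Fin (2 * n)) := ⟨⟨0, by omega⟩⟩
  have hM : 0 < (2 * n) ^ D := by positivity
  have : Nonempty (Fin ((2 * n) ^ D)) := ⟨⟨0, hM⟩⟩
  -- rewrite as iterated averages
  have e1 : av (fun θ : Theta n D s => (∏ l, f (Tm θ l)) *
      (if av (fun ξ : Fin ((2 * n) ^ D) => f (Jm θ v ξ)) < β then (1 : ℝ) else 0))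
      = av (fun g : Fin D => av (fun z : Fin ((2 * n) ^ D) => av (fun a : Fin (n + 1) =>
          blk f (bl n D g) ((z : ℕ) / bl n D g) ^ s *
          (if blk f (bl n D (g + 1)) (((z : ℕ) / bl n D g) * (2 * n) + ((a : ℕ) + v)) < β
            then (1 : ℝ) else 0)))) := by
    rw [av_prod]
    apply av_congr
    intro g
    rw [av_prod]
    apply av_congr
    intro z
    rw [av_prod]
    apply av_congr
    intro a
    have h1 : ∀ ζ : Fin s → Fin ((2 * n) ^ D),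
        (∏ l, f (Tm ((g, z, a, ζ) : Theta n D s) l)) *
        (if av (fun ξ : Fin ((2 * n) ^ D) => f (Jm ((g, z, a, ζ) : Theta n D s) v ξ)) < β
          then (1 : ℝ) else 0)
        = (if blk f (bl n D (g + 1)) (((z : ℕ) / bl n D g) * (2 * n) + ((a : ℕ) + v)) < β
            then (1 : ℝ) else 0) *
          (∏ l, f (((z : ℕ) / bl n D g) * bl n D g + (ζ l : ℕ) % bl n D g)) := by
      intro ζ
      rw [av_Jm hn]
      simp only [Tm, Jb]
      ring
    rw [av_congr h1, av_mul_left,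
      av_pi_prod s (fun x : Fin ((2 * n) ^ D) => f (((z : ℕ) / bl n D g) * bl n D g + (x : ℕ) % bl n D g)),
      av_block hn g.2.le, mul_comm]
  rw [e1]
  -- the estimate at fixed depth
  have e2 : ∀ g : Fin D, av (fun z : Fin ((2 * n) ^ D) => av (fun a : Fin (n + 1) =>
          blk f (bl n D g) ((z : ℕ) / bl n D g) ^ s *
          (if blk f (bl n D (g + 1)) (((z : ℕ) / bl n D g) * (2 * n) + ((a : ℕ) + v)) < β
            then (1 : ℝ) else 0)))
        ≤ 2 * ((2 * β) ^ s) + 8 * (Mo n D s f (g + 1) - Mo n D s f g) := by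
    intro g
    have h1 : ∀ z : Fin ((2 * n) ^ D), av (fun a : Fin (n + 1) =>
          blk f (bl n D g) ((z : ℕ) / bl n D g) ^ s *
          (if blk f (bl n D (g + 1)) (((z : ℕ) / bl n D g) * (2 * n) + ((a : ℕ) + v)) < β
            then (1 : ℝ) else 0))
        ≤ 2 * ((2 * β) ^ s) + 8 * (av (fun c : Fin (2 * n) =>
            blk f (bl n D (g + 1)) (((z : ℕ) / bl n D g) * (2 * n) + c) ^ s)
            - blk f (bl n D g) ((z : ℕ) / bl n D g) ^ s) := by
      intro z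
      set p := (z : ℕ) / bl n D g with hp
      have hsh := shift_est hn (fun x => blk f (bl n D g) p ^ s *
          (if blk f (bl n D (g + 1)) (p * (2 * n) + x) < β then (1 : ℝ) else 0))
          (fun x => mul_nonneg (pow_nonneg (blk_nonneg hf0 _ _) _) (by split_ifs <;> norm_num)) v hv
      have hst := step_est (R := 2 * n) (by omega) s hs
        (fun c : Fin (2 * n) => blk f (bl n D (g + 1)) (p * (2 * n) + c))
        (fun c => blk_nonneg hf0 _ _) β hβ
      have hsplit : blk f (bl n D g) p = av (fun c : Fin (2 * n) => blk f (bl n D (g + 1)) (p * (2 * n) + c)) := by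
        rw [bl_succ g.2, blk_split]
      rw [← hsplit] at hst
      linarith
    have h2 := av_mono h1
    have h3 : av (fun z : Fin ((2 * n) ^ D) => 2 * ((2 * β) ^ s) + 8 * (av (fun c : Fin (2 * n) =>
            blk f (bl n D (g + 1)) (((z : ℕ) / bl n D g) * (2 * n) + c) ^ s)
            - blk f (bl n D g) ((z : ℕ) / bl n D g) ^ s))
        = 2 * ((2 * β) ^ s) + 8 * (Mo n D s f (g + 1) - Mo n D s f g) := by
      rw [av_add (fun _ => 2 * ((2 * β) ^ s)), av_const, av_mul_left, av_sub, Mo_succ hn g.2]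
      rfl
    linarith
  have e3 := av_mono e2
  have e4 : av (fun g : Fin D => 2 * ((2 * β) ^ s) + 8 * (Mo n D s f (g + 1) - Mo n D s f g))
      = 2 * ((2 * β) ^ s) + 8 * ((Mo n D s f D - Mo n D s f 0) / D) := by
    rw [av_add (fun _ => 2 * ((2 * β) ^ s)), av_const, av_mul_left]
    congr 2
    unfold av
    rw [Fin.sum_univ_eq_sum_range (fun g => Mo n D s f (g + 1) - Mo n D s f g) D,
      Finset.sum_range_sub, Fintype.card_fin]
  have e5 : Mo n D s f D - Mo n D s f 0 ≤ 1 := by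
    have h1 : Mo n D s f D ≤ 1 := by
      unfold Mo
      apply av_le_const
      intro z
      exact pow_le_one₀ (blk_nonneg hf0 _ _) (blk_le_one hf1 (bl_pos hn _) _)
    have h2 : 0 ≤ Mo n D s f 0 := av_nonneg fun z => pow_nonneg (blk_nonneg hf0 _ _) _
    linarith
  have hD' : (0 : ℝ) < D := by exact_mod_cast hD
  have e6 : (Mo n D s f D - Mo n D s f 0) / D ≤ 1 / D := div_le_div_of_nonneg_right e5 hD'.le
  have e7 : (4 : ℝ) / D = 4 * (1 / D) := by ring
  rw [e7]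
  linarith

/-- Property (Q2): the template points are at least as likely to be all good as independent uniform
points. -/
theorem Q2 {n D s : ℕ} (hn : 0 < n) (hD : 0 < D) (f : ℕ → ℝ) (hf0 : ∀ x, 0 ≤ f x) :
    (av (fun x : Fin ((2 * n) ^ D) => f x)) ^ s ≤ av (fun θ : Theta n D s => ∏ l, f (Tm θ l)) := by
  have : Nonempty (Fin D) := ⟨⟨0, hD⟩⟩
  have hM : 0 < (2 * n) ^ D := by positivity
  have : Nonempty (Fin ((2 * n) ^ D)) := ⟨⟨0, hM⟩⟩
  have e1 : av (fun θ : Theta n D s => ∏ l, f (Tm θ l))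
      = av (fun g : Fin D => Mo n D s f g) := by
    rw [av_prod]
    apply av_congr
    intro g
    unfold Mo
    rw [av_prod]
    apply av_congr
    intro z
    rw [av_prod]
    have h1 : ∀ a : Fin (n + 1), av (fun ζ : Fin s → Fin ((2 * n) ^ D) =>
        ∏ l, f (Tm ((g, z, a, ζ) : Theta n D s) l)) = blk f (bl n D g) ((z : ℕ) / bl n D g) ^ s := by
      intro a
      simp only [Tm]
      rw [av_pi_prod s (fun x : Fin ((2 * n) ^ D) => f (((z : ℕ) / bl n D g) * bl n D g + (x : ℕ) % bl n D g)),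
        av_block hn g.2.le]
    rw [av_congr h1, av_const]
  rw [e1]
  apply const_le_av
  intro g
  unfold Mo
  have h1 := av_pow_le (f := fun z : Fin ((2 * n) ^ D) => blk f (bl n D g) ((z : ℕ) / bl n D g))
    (fun z => blk_nonneg hf0 _ _) s
  refine le_trans (le_of_eq ?_) h1
  congr 1
  rw [av_blocks hn g.2.le (fun p => blk f (bl n D g) p)]
  have h2 : blk f ((2 * n) ^ (g : ℕ) * bl n D g) 0 = av (fun q : Fin ((2 * n) ^ (g : ℕ)) => blk f (bl n D g) q) := by
    rw [blk_split]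
    apply av_congr
    intro c
    simp
  rw [← h2, ← M_eq g.2.le]
  unfold blk
  apply av_congr
  intro x
  simp

end Pool.Agent.D12a3a
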