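import Pool.Agent.D12a3a.OnePart

set_option autoImplicit false

namespace Pool.Agent.D12a3a

open Finset

/-- Splitting off the first coordinate of an average over functions. -/
lemma av_cons {k : ℕ} {α : Type*} [Fintype α] (Φ : (Fin (k + 1) → α) → ℝ) :
    av Φ = av (fun a : α => av (fun y : Fin k → α => Φ (Fin.cons a y))) := by
  rw [← av_equiv (Fin.consEquiv (fun _ : Fin (k + 1) => α)) Φ, av_prod]
  rfl

lemma prod_cons {k : ℕ} {s : ℕ} (Φ : (Fin (k + 1) → Fin s) → ℝ) :
    ∏ τ, Φ τ = ∏ τ' : Fin k → Fin s, ∏ l : Fin s, Φ (Fin.cons l τ') := by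
  rw [← Equiv.prod_comp (Fin.consEquiv (fun _ : Fin (k + 1) => Fin s)) Φ, Fintype.prod_prod_type,
    Finset.prod_comm]
  rfl

/-- Iterated Jensen: the probability that the templates are complete. -/
theorem complete_est {n D s : ℕ} (hn : 0 < n) (hD : 0 < D) (k : ℕ) (F : (Fin k → ℕ) → ℝ)
    (hF : ∀ z, 0 ≤ F z) :
    (av (fun y : Fin k → Fin ((2 * n) ^ D) => F (fun i => (y i : ℕ)))) ^ (s ^ k)
      ≤ av (fun θ : Fin k → Theta n D s => ∏ τ : Fin k → Fin s, F (fun i => Tm (θ i) (τ i))) := by
  have : Nonempty (Fin D) := ⟨⟨0, hD⟩⟩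
  have hM : 0 < (2 * n) ^ D := by positivity
  have : Nonempty (Fin ((2 * n) ^ D)) := ⟨⟨0, hM⟩⟩
  induction k with
  | zero =>
    simp only [pow_zero, pow_one]
    rw [av, av]
    simp
    apply le_of_eq
    congr 1
    funext i
    exact i.elim0
  | succ k ih =>
    -- the inner function
    have h1 : ∀ θ0 : Theta n D s,
        (av (fun y : Fin k → Fin ((2 * n) ^ D) =>
          ∏ l, F (Fin.cons (Tm θ0 l) (fun i => (y i : ℕ))))) ^ (s ^ k)
        ≤ av (fun θ : Fin k → Theta n D s => ∏ τ : Fin (k + 1) → Fin s,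
            F (fun i => Tm ((Fin.cons θ0 θ : Fin (k + 1) → Theta n D s) i) (τ i))) := by
      intro θ0
      have h := ih (fun z => ∏ l, F (Fin.cons (Tm θ0 l) z)) (fun z => Finset.prod_nonneg fun l _ => hF _)
      refine le_trans h (le_of_eq ?_)
      apply av_congr
      intro θ
      rw [prod_cons]
      apply Finset.prod_congr rfl
      intro τ _
      apply Finset.prod_congr rfl
      intro l _
      congr 1
      funext i
      refine Fin.cases ?_ (fun j => ?_) i
      · simp
      · simp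
    rw [av_cons (fun θ : Fin (k + 1) → Theta n D s => ∏ τ : Fin (k + 1) → Fin s,
            F (fun i => Tm (θ i) (τ i)))]
    have h2 := av_mono h1
    have h3 := av_pow_le (f := fun θ0 : Theta n D s => av (fun y : Fin k → Fin ((2 * n) ^ D) =>
          ∏ l, F (Fin.cons (Tm θ0 l) (fun i => (y i : ℕ)))))
          (fun θ0 => av_nonneg fun y => Finset.prod_nonneg fun l _ => hF _) (s ^ k)
    have h4 : (av (fun y : Fin (k + 1) → Fin ((2 * n) ^ D) => F (fun i => (y i : ℕ)))) ^ s
        ≤ av (fun θ0 : Theta n D s => av (fun y : Fin k → Fin ((2 * n) ^ D) =>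
          ∏ l, F (Fin.cons (Tm θ0 l) (fun i => (y i : ℕ))))) := by
      rw [av_comm]
      have h5 : ∀ y : Fin k → Fin ((2 * n) ^ D),
          (av (fun x : Fin ((2 * n) ^ D) => F (Fin.cons (x : ℕ) (fun i => (y i : ℕ))))) ^ s
          ≤ av (fun θ0 : Theta n D s => ∏ l, F (Fin.cons (Tm θ0 l) (fun i => (y i : ℕ)))) := by
        intro y
        exact Q2 hn hD (fun x => F (Fin.cons x (fun i => (y i : ℕ)))) (fun x => hF _)
      refine le_trans ?_ (av_mono h5)
      refine le_trans ?_ (av_pow_le (fun y => av_nonneg fun x => hF _) s)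
      apply le_of_eq
      congr 1
      rw [av_cons, av_comm]
      apply av_congr
      intro y
      apply av_congr
      intro x
      congr 1
      funext i
      refine Fin.cases ?_ (fun j => ?_) i
      · simp
      · simp
    have h6 : 0 ≤ av (fun y : Fin (k + 1) → Fin ((2 * n) ^ D) => F (fun i => (y i : ℕ))) :=
      av_nonneg fun y => hF _
    calc (av (fun y : Fin (k + 1) → Fin ((2 * n) ^ D) => F (fun i => (y i : ℕ)))) ^ (s ^ (k + 1))
        = ((av (fun y : Fin (k + 1) → Fin ((2 * n) ^ D) => F (fun i => (y i : ℕ)))) ^ s) ^ (s ^ k) := by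
          rw [← pow_mul, pow_succ']
      _ ≤ _ := pow_le_pow_left₀ (pow_nonneg h6 s) h4 (s ^ k)
      _ ≤ _ := h3
      _ ≤ _ := h2

end Pool.Agent.D12a3a
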